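import Pool.Agent.H92.EM.Defs

/-!
Board emd_modules (MP_75a732_an), blocks L, T, S (model bound) and R (mean).
-/

namespace Pool.Agent.H92.EM

open scoped BigOperators ComplexConjugate ContDiff ComplexOrder
open MeasureTheory Pool.Agent.H92.EQ

noncomputable section

/-! ### Block L -/

/-- MLD: the lifted vector field. -/
def T_MLD : Prop :=
  ∀ m k : ℕ, m ≤ k + 1 → ∃ c : ℝ, 0 < c ∧
    ∀ (P A : Matrix (Fin (k + 1)) (Fin (k + 1)) ℂ) (x y : Fin (k + 1) → ℂ) (D : ℕ)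
    (M ρ τ s : ℝ), 1 ≤ D → 1 ≤ M → 0 < ρ → ρ ≤ 1 → 0 ≤ τ → τ ≤ 1 / (2 * (k + 1)) → 0 ≤ s →
    s ≤ 1 → y ≠ 0 → nrm x = 1 →
    (∀ i j : Fin (k + 1), (i : ℕ) < m → j ≠ i → A i j = 0) →
    (∀ i j : Fin (k + 1), (i : ℕ) < m → j ≠ i → P i j = 0) →
    (∀ i : Fin (k + 1), (i : ℕ) < m → P i i * x i = D * y i) →
    (∀ i j, ‖A i j - (1 : Matrix (Fin (k + 1)) (Fin (k + 1)) ℂ) i j‖ ≤ τ) →
    (∀ i j, ‖P i j‖ ≤ M * nrm y) → ρ * nrm y ^ (k + 1 - m) ≤ ‖(lowM m P).det‖ →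
    (1 + (s : ℂ) • (A - 1)).det ≠ 0 ∧
    ∃ ξ : Fin (k + 1) → ℂ, ((1 + (s : ℂ) • (A - 1)) * P).mulVec ξ = (A - 1).mulVec y ∧
      nrm ξ ≤ c * M ^ (k + 1) / ρ * τ

/-- MLE: the block L. -/
def T_MLE : Prop := ∀ m k p q, m ≤ k + 1 → LocLipE m k p q

/-! ### Block T -/

/-- MBU: the bump. -/
def T_MBU : Prop :=
  ∃ C : ℝ, 0 < C ∧
    (∀ θ : ℝ, 0 < θ → ContDiff ℝ ∞ (bs θ) ∧ (∀ t, 0 ≤ bs θ t) ∧ (∀ t, bs θ t ≤ C / θ ^ 2) ∧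
      (∀ t, θ ≤ ‖t‖ → bs θ t = 0) ∧ Integrable (bs θ) ∧ ∫ t, bs θ t = 1) ∧
    (∀ θ θ' : ℝ, 0 < θ → θ ≤ θ' → ∃ ψ : ℂ → ℝ, ContDiff ℝ ∞ ψ ∧ HasCompactSupport ψ ∧
      (∀ t, θ' ≤ ‖t‖ → ψ t = 0) ∧ (∀ t, lapl ψ t = bs θ' t - bs θ t) ∧ (∀ t, 0 ≤ ψ t) ∧
      (∀ t, ψ t ≤ C + Real.log (θ' / θ)) ∧
      (∀ t, t ≠ 0 → ‖t‖ < θ' → ψ t ≤ Real.log (θ' / ‖t‖)))

/-- MTG: generic masked matrices, one entry moves. -/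
def T_MTG : Prop :=
  ∀ (m k : ℕ) (i j : Fin (k + 1)), m ≤ k + 1 → ((i : ℕ) < m → j = i) →
    ∀ᵐ X : Fin (k + 1) → Fin (k + 1) → ℂ,
    (msk m (Matrix.of X)).det ≠ 0 ∧ ∃ (t1 : ℂ) (C : ℝ), ∀ t, t ≠ t1 →
      (Matrix.of (rep (msk m (Matrix.of X)) i j t)).det ≠ 0 ∧
      ∀ y : Fin (k + 1) → ℂ, y ≠ 0 →
        |ell ((Matrix.of (rep (msk m (Matrix.of X)) i j t)).mulVec y) - ell y| ≤
          ((k + 1 : ℕ) : ℝ) * |Real.log ‖t - t1‖| + C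

/-- MTZ: the block T. -/
def T_MTZ : Prop := ∀ m k p q, m ≤ k + 1 → p + q = k → TBmp m k p q

/-! ### Block S: the model bound -/

/-- MSA: domination of a tensor near a hyperplane. -/
def T_MSA : Prop :=
  ∀ N s : ℕ, s + 1 < N → ∃ C : ℝ, 0 < C ∧ ∀ (y : Fin N → ℂ) (b : Fin N) (δ : ℝ)
    (W : (Fin (s + 1) → Fin N) → (Fin (s + 1) → Fin N) → ℂ), nsq y = 1 →
    Pool.Agent.H92.EHD.Ten y W → 0 < δ → δ ≤ 1 → ‖y b‖ ≤ δ → ‖y b‖ ^ 2 ≤ 1 / 2 →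
    Psd (fun I J => ((C * δ ^ 2 * Pool.Agent.H92.EHD.trF W : ℝ) : ℂ) *
        wedge (om N s y)
          (hessR (fun z => (1 / 2) * Real.log (‖z b‖ ^ 2 + δ ^ 2 * nsq z)) y) I J +
      ((C * trO b W : ℝ) : ℂ) * om N (s + 1) y I J - W I J)

/-- MSB: the density of the image of a point. -/
def T_MSB : Prop :=
  ∀ (m k : ℕ) (ε : ℝ), 0 < ε → ∃ C : ENNReal, C ≠ ⊤ ∧ ∀ y : Fin (k + 1) → ℂ, nsq y = 1 →
    ∀ h : (Fin (k + 1) → ℂ) → ENNReal, Measurable h →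
    ((∀ i : Fin (k + 1), (i : ℕ) < m → ε ≤ ‖y i‖) →
      ∫⁻ X : Fin (k + 1) → Fin (k + 1) → ℂ,
          ENNReal.ofReal (bth (th0 k) X) * h ((mX m X).mulVec y) ≤
        C * ∫⁻ Y in {Y : Fin (k + 1) → ℂ | 1 / 2 ≤ nrm Y ∧ nrm Y ≤ 2}, h Y) ∧
    ∀ b : Fin (k + 1), (b : ℕ) < m → y b ≠ 0 →
      (∀ i : Fin (k + 1), (i : ℕ) < m → i ≠ b → ε ≤ ‖y i‖) →
      ∫⁻ X : Fin (k + 1) → Fin (k + 1) → ℂ,
          ENNReal.ofReal (bth (th0 k) X) * h ((mX m X).mulVec y) ≤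
        C * (ENNReal.ofReal ((‖y b‖ ^ 2)⁻¹) *
          ∫⁻ Y in {Y : Fin (k + 1) → ℂ | (1 / 2 ≤ nrm Y ∧ nrm Y ≤ 2) ∧
            (‖y b‖ / 2 ≤ ‖Y b‖ ∧ ‖Y b‖ ≤ 2 * ‖y b‖)}, h Y)

/-- MSC: traces of pull-backs by matrices near the identity. -/
def T_MSC : Prop :=
  ∀ (k s : ℕ), ∃ C : ℝ, 0 < C ∧ ∀ (S : Form (Fin (k + 1)) s)
    (A : Matrix (Fin (k + 1)) (Fin (k + 1)) ℂ) (y : Fin (k + 1) → ℂ), Psd (S (A.mulVec y)) →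
    (∀ i j, ‖A i j - (1 : Matrix (Fin (k + 1)) (Fin (k + 1)) ℂ) i j‖ ≤ 1) →
    0 ≤ Pool.Agent.H92.EHD.trF (pull (lin A) S y) ∧
    Pool.Agent.H92.EHD.trF (pull (lin A) S y) ≤
      C * Pool.Agent.H92.EHD.trF (S (A.mulVec y)) ∧
    ∀ b : Fin (k + 1), 0 ≤ trO b (pull (lin A) S y) ∧
      ((∀ j, j ≠ b → A b j = 0) → trO b (pull (lin A) S y) ≤ C * trO b (S (A.mulVec y)))

/-- MSD: masses in the region `|Y| ~ 1`. -/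
def T_MSD : Prop :=
  ∀ k s q : ℕ, s + 1 + q = k → ∃ C : ℝ, 0 < C ∧ ∀ S : Form (Fin (k + 1)) (s + 1), ProjForm S →
    ∫⁻ Y in {Y : Fin (k + 1) → ℂ | 1 / 2 ≤ nrm Y ∧ nrm Y ≤ 2},
        ENNReal.ofReal (Pool.Agent.H92.EHD.trF (S Y)) ≤ ENNReal.ofReal (C * mass q S) ∧
    ∀ (b : Fin (k + 1)) (η : ℝ), 0 < η → η ≤ 1 →
      ∫⁻ Y in {Y : Fin (k + 1) → ℂ | (1 / 2 ≤ nrm Y ∧ nrm Y ≤ 2) ∧
          (η / 2 ≤ ‖Y b‖ ∧ ‖Y b‖ ≤ 2 * η)}, ENNReal.ofReal (trO b (S Y)) ≤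
        ENNReal.ofReal (C * η ^ 2 * mass q S)

/-- MSE: the masses of the slabs. -/
def T_MSE : Prop :=
  ∀ m k s q : ℕ, s + 1 + q = k → ∃ C : ℝ, 0 < C ∧ ∀ (S : Form (Fin (k + 1)) (s + 1)) (A : ℝ),
    0 ≤ A → ProjForm S → LM m q S A → mass q S = mass q (om (k + 1) (s + 1)) →
    ∀ (b : Fin (k + 1)) (L : ℕ), (b : ℕ) < m →
    ∑ l ∈ Finset.range L, ENNReal.ofReal (l + 1) *
        ∫⁻ Y in {Y : Fin (k + 1) → ℂ | (1 / 2 ≤ nrm Y ∧ nrm Y ≤ 2) ∧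
          ((1 / 2 : ℝ) ^ (l + 2) ≤ ‖Y b‖ ∧ ‖Y b‖ ≤ 2 * (1 / 2) ^ l)},
          ENNReal.ofReal (Pool.Agent.H92.EHD.trF (S Y)) ≤
      ENNReal.ofReal (C * (1 + A))

/-- MSZ: the model bound. -/
def T_MSZ : Prop :=
  ∀ (m k s q : ℕ) (κ : ℝ), m ≤ k + 1 → s + 1 + q = k → ∃ C : ℝ, 0 < C ∧
    ∀ (S : Form (Fin (k + 1)) (s + 1)) (A : ℝ), 0 ≤ A → ProjForm S → InK (Zk m κ) S →
    LM m q S A → mass q S = mass q (om (k + 1) (s + 1)) →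
    ∃ (n : ℕ) (b : Fin n → Fin (k + 1)) (δ c : Fin n → ℝ),
    (∀ r, (b r : ℕ) < m ∧ 0 < δ r ∧ δ r ≤ 1 ∧ 0 ≤ c r) ∧ ∑ r, c r ≤ C ∧
    ∑ r, c r * Real.log (1 / δ r) ≤ C * (1 + A) ∧
    ∀ y : Fin (k + 1) → ℂ, y ≠ 0 → (∀ i : Fin (k + 1), (i : ℕ) < m → y i ≠ 0) →
      Psd (fun I J => (C : ℂ) * om (k + 1) (s + 1) y I J +
        ∑ r, (c r : ℂ) * TF s (b r) (δ r) y I J - avS m S y I J)

/-! ### Block R: the mean -/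

/-- MRG: matrices near the identity, one entry moves. -/
def T_MRG : Prop :=
  ∀ (k : ℕ) (X : Fin (k + 1) → Fin (k + 1) → ℂ) (i j : Fin (k + 1)),
    (∀ a b, ‖X a b - (1 : Matrix (Fin (k + 1)) (Fin (k + 1)) ℂ) a b‖ ≤ th0 k) →
    ∃ (t1 : ℂ) (C : ℝ), 1 / 2 ≤ ‖t1 - (1 : Matrix (Fin (k + 1)) (Fin (k + 1)) ℂ) i j‖ ∧
    ∀ t, t ≠ t1 → (Matrix.of (rep X i j t)).det ≠ 0 ∧
      ∀ y : Fin (k + 1) → ℂ, y ≠ 0 →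
        |ell ((Matrix.of (rep X i j t)).mulVec y) - ell y| ≤
          ((k + 1 : ℕ) : ℝ) * |Real.log ‖t - t1‖| + C

/-- MRK: from the centre to the bump. -/
def T_MRK : Prop :=
  ∀ (c t1 : ℂ) (θ : ℝ) (a m m' : ℂ → ℝ), 0 < θ → θ < ‖t1 - c‖ → ContinuousOn a {t1}ᶜ →
    (∀ t, t ≠ t1 → 0 ≤ m t ∧ 0 ≤ m' t) → ContinuousOn m {t1}ᶜ → ContinuousOn m' {t1}ᶜ →
    Weak {t1}ᶜ a (fun t => m t - m' t) →
    ENNReal.ofReal |a c - ∫ t, bs θ (t - c) * a t| ≤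
      (∫⁻ t in {t : ℂ | ‖t - c‖ < θ},
        ENNReal.ofReal (Real.log (θ / ‖t - c‖)) * ENNReal.ofReal (m t)) +
      (∫⁻ t in {t : ℂ | ‖t - c‖ < θ},
        ENNReal.ofReal (Real.log (θ / ‖t - c‖)) * ENNReal.ofReal (m' t))

/-- MRF: the integral over the moving entry. -/
def T_MRF : Prop :=
  ∃ C : ℝ, 0 < C ∧ ∀ (α β : ℂ) (δ θ : ℝ), ‖β‖ ≤ 1 → 0 < δ → δ ≤ 1 → 0 < θ → θ ≤ 1 →
    ∫⁻ t in {t : ℂ | ‖t‖ < θ}, ENNReal.ofReal (Real.log (θ / ‖t‖)) *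
        ENNReal.ofReal (δ ^ 2 * ‖β‖ ^ 2 / (‖α + t * β‖ ^ 2 + δ ^ 2) ^ 2) ≤
      ENNReal.ofReal (C * (1 + Real.log (1 / δ)))

/-- MRH: the Hessians on the space of the `(t,x)`. -/
def T_MRH : Prop :=
  ∀ k : ℕ, ∃ C : ℝ, 0 < C ∧ ∀ (D : ℕ) (Φ : Fin (k + 1) → MvPolynomial (Fin (k + 1)) ℂ),
    1 ≤ D → IsH D Φ → ∀ (X : Fin (k + 1) → Fin (k + 1) → ℂ) (i j b : Fin (k + 1)) (t : ℂ)
    (δ : ℝ) (x : Fin (k + 1) → ℂ),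
    (∀ a b, ‖X a b - (1 : Matrix (Fin (k + 1)) (Fin (k + 1)) ℂ) a b‖ ≤ th0 k) →
    ‖t - (1 : Matrix (Fin (k + 1)) (Fin (k + 1)) ℂ) i j‖ ≤ th0 k → 0 < δ → δ ≤ 1 → x ≠ 0 →
    ∀ Y : Fin (k + 1) → ℂ, Y = (Matrix.of (rep X i j t)).mulVec (ev Φ x) →
    (((C : ℂ) • Matrix.of (fun a b : Fin (k + 1 + 1) => Fin.cases (motive := fun _ => ℂ)
        (Fin.cases (motive := fun _ => ℂ) 1 (fun _ => 0) b)
        (fun a' => Fin.cases (motive := fun _ => ℂ) 0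
          (fun b' => hessR (fun x => ell (ev Φ x)) x a' b') b) a)) -
      hessR (fun z => ell (ev (Pool.Agent.H14.EQ.GP Φ X i j) z)) (ct t x)).PosSemidef ∧
    (((C : ℂ) • Matrix.of (fun a c : Fin (k + 1 + 1) => Fin.cases (motive := fun _ => ℂ)
        (Fin.cases (motive := fun _ => ℂ)
          ((1 + (if i = b then δ ^ 2 * nsq Y * ‖ev Φ x j‖ ^ 2 /
            (‖Y b‖ ^ 2 + δ ^ 2 * nsq Y) ^ 2 else 0) : ℝ) : ℂ) (fun _ => 0) c)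
        (fun a' => Fin.cases (motive := fun _ => ℂ) 0
          (fun c' => hessR (fun x => wH b δ
            ((Matrix.of (rep X i j t)).mulVec (ev Φ x))) x a' c') c) a)) -
      hessR (fun z => wH b δ (ev (Pool.Agent.H14.EQ.GP Φ X i j) z)) (ct t x)).PosSemidef

/-- MRC: the costs of the closed forms. -/
def T_MRC : Prop :=
  ∀ k s q : ℕ, s + 1 + q = k → ∃ C : ℝ, 0 < C ∧ ∀ (D : ℕ)
    (Φ : Fin (k + 1) → MvPolynomial (Fin (k + 1)) ℂ), 1 ≤ D → IsH D Φ →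
    ∀ (X : Fin (k + 1) → Fin (k + 1) → ℂ) (i j : Fin (k + 1)),
    (∀ a b, ‖X a b - (1 : Matrix (Fin (k + 1)) (Fin (k + 1)) ℂ) a b‖ ≤ th0 k) →
    ∀ v : Fin (q + 1) → (Fin (k + 1) → ℂ) → ℝ, (∀ l, Pot (v l)) →
    ∫⁻ t in {t : ℂ | ‖t - (1 : Matrix (Fin (k + 1)) (Fin (k + 1)) ℂ) i j‖ < th0 k},
        ENNReal.ofReal (Real.log
          (th0 k / ‖t - (1 : Matrix (Fin (k + 1)) (Fin (k + 1)) ℂ) i j‖)) *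
        ENNReal.ofReal (mT (pull (Pool.Agent.H14.EQ.GP Φ X i j) (om (k + 1) (s + 1)))
          (fun l z => v l (tl z)) t) ≤ ENNReal.ofReal (C * (D : ℝ) ^ s) ∧
    ∀ (b : Fin (k + 1)) (δ : ℝ), 0 < δ → δ ≤ 1 →
    ∫⁻ t in {t : ℂ | ‖t - (1 : Matrix (Fin (k + 1)) (Fin (k + 1)) ℂ) i j‖ < th0 k},
        ENNReal.ofReal (Real.log
          (th0 k / ‖t - (1 : Matrix (Fin (k + 1)) (Fin (k + 1)) ℂ) i j‖)) *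
        ENNReal.ofReal (mT (pull (Pool.Agent.H14.EQ.GP Φ X i j) (TF s b δ))
          (fun l z => v l (tl z)) t) ≤
      ENNReal.ofReal (C * (1 + Real.log (1 / δ)) * (D : ℝ) ^ s)

/-- MRT: the mean cost of `S`. -/
def T_MRT : Prop :=
  ∀ (m k s q : ℕ) (κ : ℝ), m ≤ k + 1 → s + 1 + q = k → ∃ C : ℝ, 0 < C ∧
    ∀ (S : Form (Fin (k + 1)) (s + 1)) (A : ℝ), 0 ≤ A → ProjForm S → InK (Zk m κ) S →
    LM m q S A → mass q S = mass q (om (k + 1) (s + 1)) →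
    ∀ (D : ℕ) (Φ : Fin (k + 1) → MvPolynomial (Fin (k + 1)) ℂ), 1 ≤ D → IsH D Φ →
    ∀ (X : Fin (k + 1) → Fin (k + 1) → ℂ) (i j : Fin (k + 1)),
    (∀ a b, ‖X a b - (1 : Matrix (Fin (k + 1)) (Fin (k + 1)) ℂ) a b‖ ≤ th0 k) →
    ∀ v : Fin (q + 1) → (Fin (k + 1) → ℂ) → ℝ, (∀ l, Pot (v l)) →
    ∫⁻ X' : Fin (k + 1) → Fin (k + 1) → ℂ, ENNReal.ofReal (bth (th0 k) X') *
      (∫⁻ t in {t : ℂ | ‖t - (1 : Matrix (Fin (k + 1)) (Fin (k + 1)) ℂ) i j‖ < th0 k},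
        ENNReal.ofReal (Real.log
          (th0 k / ‖t - (1 : Matrix (Fin (k + 1)) (Fin (k + 1)) ℂ) i j‖)) *
        ENNReal.ofReal (mT (pull (Pool.Agent.H14.EQ.GP Φ X i j) (pull (lin (mX m X')) S))
          (fun l z => v l (tl z)) t)) ≤ ENNReal.ofReal (C * (1 + A) * (D : ℝ) ^ s)

/-- MRV: one more entry is switched on. -/
def T_MRV : Prop :=
  ∀ (m k s q : ℕ) (κ : ℝ), m ≤ k + 1 → s + 1 + q = k → ∃ C : ℝ, 0 < C ∧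
    ∀ (D : ℕ) (Φ : Fin (k + 1) → MvPolynomial (Fin (k + 1)) ℂ), 1 ≤ D → IsH D Φ →
    ∀ (w w' : (Fin (k + 1) → ℂ) → ℝ) (u : Fin q → (Fin (k + 1) → ℂ) → ℝ), Pot w → Pot w' →
    (∀ l, Pot (u l)) → ∀ (S : Form (Fin (k + 1)) (s + 1)) (A : ℝ), 0 ≤ A → ProjForm S →
    InK (Zk m κ) S → LM m q S A → mass q S = mass q (om (k + 1) (s + 1)) →
    ∀ r : ℕ, r < (k + 1) * (k + 1) →
    |(∫ X' : Fin (k + 1) → Fin (k + 1) → ℂ, ∫ X : Fin (k + 1) → Fin (k + 1) → ℂ,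
        bth (th0 k) X' * (bth (th0 k) X *
          am (fun z => w z - w' z) Φ S u (mX m X' * (1 + Matrix.of (sw (r + 1) X))))) -
      ∫ X' : Fin (k + 1) → Fin (k + 1) → ℂ, ∫ X : Fin (k + 1) → Fin (k + 1) → ℂ,
        bth (th0 k) X' * (bth (th0 k) X *
          am (fun z => w z - w' z) Φ S u (mX m X' * (1 + Matrix.of (sw r X))))| ≤
      C * (1 + A) * ((D : ℝ) ^ (s + 1) / D)

/-- MRS: smoothing by matrices near the identity. -/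
def T_MRS : Prop :=
  ∀ k p q : ℕ, p + q = k → ∃ C : ℝ, 0 < C ∧
    ∀ (D : ℕ) (Φ : Fin (k + 1) → MvPolynomial (Fin (k + 1)) ℂ), 1 ≤ D → IsH D Φ →
    ∀ (f : (Fin (k + 1) → ℂ) → ℝ) (u : Fin q → (Fin (k + 1) → ℂ) → ℝ) (B θ : ℝ), Hom0 f →
    0 ≤ B → (∀ z, z ≠ 0 → |f z| ≤ B) → (∀ l, Pot (u l)) → 0 < θ → θ ≤ 1 →
    ∀ S : Form (Fin (k + 1)) p, ProjForm S →
    Integrable (fun X : Fin (k + 1) → Fin (k + 1) → ℂ =>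
      bth (th0 k) X * am f Φ S u (1 + Matrix.of X)) ∧
    Integrable (fun Z : (Fin (k + 1) → Fin (k + 1) → ℂ) × (Fin (k + 1) → Fin (k + 1) → ℂ) =>
      bth (th0 k) Z.1 * (gss Z.2 *
        am f Φ S u ((1 + Matrix.of Z.1) * (1 + (θ : ℂ) • Matrix.of Z.2)))) ∧
    |(∫ X : Fin (k + 1) → Fin (k + 1) → ℂ, bth (th0 k) X * am f Φ S u (1 + Matrix.of X)) -
      ∫ X : Fin (k + 1) → Fin (k + 1) → ℂ, ∫ Y : Fin (k + 1) → Fin (k + 1) → ℂ,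
        bth (th0 k) X * (gss Y *
          am f Φ S u ((1 + Matrix.of X) * (1 + (θ : ℂ) • Matrix.of Y)))| ≤
      C * θ * B * ((D : ℝ) ^ p * mass q S)

/-- MRZ: the block R. -/
def T_MRZ : Prop := ∀ m k p q : ℕ, m ≤ k + 1 → p + q = k → MeanM m k p q

end

end Pool.Agent.H92.EM
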