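import Pool.Agent.H92.EM.TA

/-!
Board emd_modules (MP_75a732_an), block K.  Each target is the target of ehd_modules with the
same letters (EKB → MKB, ...) with the hyperplanes `z_i = 0`, `i < m`, in place of `z_0 = 0`.
-/

namespace Pool.Agent.H92.EM

open scoped BigOperators ComplexConjugate ContDiff ComplexOrder
open MeasureTheory Pool.Agent.H92.EQ

noncomputable section

/-- MKB: the lower Jacobian (as EKB). -/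
def T_MKB : Prop :=
  ∀ (m k d : ℕ) (F : Fin (k + 1) → MvPolynomial (Fin (k + 1)) ℂ), m ≤ k → 0 < k → 2 ≤ d →
    IsM m d F →
    lowP m F ≠ 0 ∧ (lowP m F).IsHomogeneous ((k + 1 - m) * (d - 1)) ∧
    1 ≤ (k + 1 - m) * (d - 1) ∧
    (∀ b : Fin (k + 1), (b : ℕ) < m → ¬ MvPolynomial.X b ∣ lowP m F) ∧
    (∀ z, MvPolynomial.eval z (lowP m F) = (lowM m (jac F z)).det) ∧
    (∃ C : ℝ, 1 ≤ C ∧ ∀ z, z ≠ 0 → nv (lowP m F) ((k + 1 - m) * (d - 1)) z ≤ C) ∧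
    (∀ ε : ℝ, 0 < ε → Pot (we (lowP m F) ((k + 1 - m) * (d - 1)) ε) ∧ ∀ z, z ≠ 0 →
      ((k + 1 - m) * (d - 1) : ℕ) * (we (lowP m F) ((k + 1 - m) * (d - 1)) ε z - ell z) =
        (1 / 2) * Real.log (nv (lowP m F) ((k + 1 - m) * (d - 1)) z ^ 2 + ε ^ 2)) ∧
    (∀ n, IsM m (d ^ n) (iter F n))

/-- MKL: lower bound of the relative lower Jacobian (as EKL). -/
def T_MKL : Prop :=
  ∀ (m k d : ℕ) (F : Fin (k + 1) → MvPolynomial (Fin (k + 1)) ℂ), m ≤ k → 0 < k → 2 ≤ d →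
    IsM m d F →
    ∃ c : ℝ, 0 < c ∧ c ≤ 1 ∧ ∀ (n : ℕ) (x : Fin (k + 1) → ℂ), x ≠ 0 →
      c ^ n * ∏ l ∈ Finset.range n, nv (lowP m F) ((k + 1 - m) * (d - 1)) (ev (iter F l) x) ≤
        relL m (iter F n) x

/-- MKJ: the cutoff (as EKJ; also for `m = k + 1`). -/
def T_MKJ : Prop :=
  ∀ (m k d : ℕ) (F : Fin (k + 1) → MvPolynomial (Fin (k + 1)) ℂ), m ≤ k + 1 → 0 < k → 2 ≤ d →
    IsM m d F →
    ∃ K : ℝ, 1 ≤ K ∧ ∀ (n : ℕ) (ρ : ℝ), 0 < ρ → ρ ≤ 1 → ∃ κ : (Fin (k + 1) → ℂ) → ℝ,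
    Hom0 κ ∧ (∀ x, x ≠ 0 → 0 ≤ κ x ∧ κ x ≤ 1) ∧
    (∀ x, x ≠ 0 → 2 * ρ ≤ relL m (iter F n) x → κ x = 1) ∧
    (∀ x, nrm x = 1 → ∀ a, ‖wd a (fun w => (κ w : ℂ)) x‖ ≤ K ^ (n + 1) / ρ ^ 2) ∧
    (∀ x, nrm x = 1 → ∀ i a,
      ‖jac (iter F n) x i a‖ ≤ K ^ (n + 1) * nrm (ev (iter F n) x)) ∧
    (∀ x, nrm x = 1 → ∀ i a b,
      ‖MvPolynomial.eval x (MvPolynomial.pderiv b (MvPolynomial.pderiv a (iter F n i)))‖ ≤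
        K ^ (n + 1) * nrm (ev (iter F n) x)) ∧
    (∀ x, nrm x = 1 → κ x ≠ 0 →
      ρ * nrm (ev (iter F n) x) ^ (k + 1 - m) ≤ ‖(lowM m (jac (iter F n) x)).det‖)

/-- MWH: the potentials of the hyperplanes (as EWH). -/
def T_MWH : Prop :=
  ∀ (m k d : ℕ) (F : Fin (k + 1) → MvPolynomial (Fin (k + 1)) ℂ), 2 ≤ d → IsM m d F →
    ∃ B : ℝ, 0 < B ∧ ∀ b : Fin (k + 1), (b : ℕ) < m →
    (∀ δ : ℝ, 0 < δ → Pot (wH (k := k) b δ)) ∧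
    (∀ δ : ℝ, 0 < δ → δ ≤ 1 → ∀ z : Fin (k + 1) → ℂ, z ≠ 0 → -1 ≤ ell z - wH b δ z) ∧
    (∀ (δ : ℝ) (n : ℕ), 0 < δ →
      Pot (fun z => (1 / (d : ℝ) ^ n) * wH b δ (ev (iter F n) z))) ∧
    (∀ δ : ℝ, 0 < δ → δ ≤ 1 → ∀ n : ℕ, ∃ δ' : ℝ, 0 < δ' ∧ δ' ≤ 1 ∧
      ∀ z : Fin (k + 1) → ℂ, z ≠ 0 →
        |wH b δ z - (1 / (d : ℝ) ^ n) * wH b δ' (ev (iter F n) z)| ≤ B) ∧
    (∀ δ : ℝ, 0 < δ → δ ≤ 1 → ∀ n : ℕ, ∀ z : Fin (k + 1) → ℂ, z ≠ 0 →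
      |(1 / (d : ℝ) ^ n) * wH b δ (ev (iter F n) z) - wH b (δ ^ (1 / (d : ℝ) ^ n)) z| ≤ B)

/-- MKI: the last term (as EKI). -/
def T_MKI : Prop :=
  ∀ (m k d p q l i : ℕ) (F : Fin (k + 1) → MvPolynomial (Fin (k + 1)) ℂ)
    (K : Set (Fin (k + 1) → ℂ)) (S : Form (Fin (k + 1)) p) (f : (Fin (k + 1) → ℂ) → ℝ)
    (h r a b : ℝ), 2 ≤ d → p + q = k → IsM m d F → ProjForm S → InK K S →
    mass q S = mass q (om (k + 1) p) → Hom0 f → 0 ≤ h → 0 ≤ a → 0 ≤ b → HitL m F d K i r h →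
    (∀ z, z ≠ 0 → f z ≤ a + b) → (∀ z, z ≠ 0 → z ∉ CrL m F d r → f z ≤ b) →
    pair (fun z => f (ev (iter F l) z)) (Sn F d (i + l) S) (fun _ : Fin q => Gn F d (i + l)) ≤
      (a * h + b) * mass q (om (k + 1) p)

/-- MMA: the logarithmic masses of `S_i` (as EMA). -/
def T_MMA : Prop :=
  ∀ (m k d p q : ℕ) (F : Fin (k + 1) → MvPolynomial (Fin (k + 1)) ℂ), 2 ≤ d → p + q = k →
    IsM m d F → ∃ C : ℝ, 0 < C ∧ ∀ (K : Set (Fin (k + 1) → ℂ)) (i : ℕ) (A : ℝ)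
    (S : Form (Fin (k + 1)) p), 0 ≤ A → Cls m K q A S →
    Cls m (ev (iter F i) ⁻¹' K) q (A / (d : ℝ) ^ i + C) (Sn F d i S)

/-- MMB: the logarithmic masses of `S_i ∧ dd^c w_ε` (as EMB). -/
def T_MMB : Prop :=
  ∀ (m k d p q : ℕ) (F : Fin (k + 1) → MvPolynomial (Fin (k + 1)) ℂ), m ≤ k → 2 ≤ d →
    p + (q + 1) = k → IsM m d F → ∃ C : ℝ, 0 < C ∧ ∀ (K : Set (Fin (k + 1) → ℂ)) (i : ℕ)
    (A r h ε : ℝ) (S : Form (Fin (k + 1)) p), 0 ≤ A → 0 ≤ h → 0 < r → r ≤ 1 → 0 < ε → ε ≤ 1 →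
    HitL m F d K i r h → Cls m K (q + 1) A S →
    Cls m (ev (iter F i) ⁻¹' K) q
      (A / (d : ℝ) ^ i + C + Real.log (1 / r) + h * Real.log (1 / ε))
      (fun z => wedge (Sn F d i S z)
        (hessR (we (lowP m F) ((k + 1 - m) * (d - 1)) ε) z)) ∧
    Cls m (ev (iter F i) ⁻¹' K) q (A / (d : ℝ) ^ i + C)
      (fun z => wedge (Sn F d i S z) (hessR ell z))

/-- MKF: uniform smallness in codimension `p` (as EKF). -/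
def T_MKF : Prop :=
  ∀ (m k d p q : ℕ) (F : Fin (k + 1) → MvPolynomial (Fin (k + 1)) ℂ)
    (𝒦 : Set (Set (Fin (k + 1) → ℂ))), 2 ≤ d → p + q = k → IsM m d F → ConvE m F d p 𝒦 →
    ∀ η : ℝ, 0 < η → ∃ a : ℝ, 0 < a ∧ ∀ K ∈ 𝒦, ∃ m0 : ℕ, ∀ l ≥ m0, ∀ n ≥ l, ∀ j : ℕ,
    ∀ R R' : Form (Fin (k + 1)) p, Cls m K q (a * (d : ℝ) ^ l) R →
    Cls m K q (a * (d : ℝ) ^ l) R' →
    |pair (fun z => Gn F d n z - ell z) (Sn F d l R)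
        (fun l : Fin q => if (l : ℕ) < j then Gn F d n else ell) -
      pair (fun z => Gn F d n z - ell z) (Sn F d l R')
        (fun l : Fin q => if (l : ℕ) < j then Gn F d n else ell)| ≤ η

/-- MK1: the key estimate, crude form (as EK1). -/
def T_MK1 : Prop :=
  ∀ (m k d p q : ℕ) (F : Fin (k + 1) → MvPolynomial (Fin (k + 1)) ℂ), m ≤ k → 0 < k → 2 ≤ d →
    p + q = k → IsM m d F → ∃ C : ℝ, 0 < C ∧ ∀ (K : Set (Fin (k + 1) → ℂ)) (n i : ℕ)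
    (δ r h : ℝ) (S : Form (Fin (k + 1)) p), i ≤ n → 0 < δ → 0 < r →
    r ≤ 1 → 0 ≤ h → HitL m F d K i r h → ProjForm S → InK K S →
    mass q S = mass q (om (k + 1) p) →
    betaL m F d n i q (Real.exp (-(δ * (d : ℝ) ^ n))) S ≤
      (2 * h + C / (δ * (d : ℝ) ^ i) + (2 * Real.log (1 / r) + C) / (δ * (d : ℝ) ^ n)) *
        mass q (om (k + 1) p)

/-- MK2: the key estimate for a fixed level (as EK2). -/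
def T_MK2 : Prop :=
  ∀ (m k d p q : ℕ) (F : Fin (k + 1) → MvPolynomial (Fin (k + 1)) ℂ)
    (𝒦 : Set (Set (Fin (k + 1) → ℂ))), m ≤ k → 0 < k → 2 ≤ d → p + q = k → IsM m d F →
    StK F 𝒦 → ConvE m F d (p + 1) 𝒦 → ∀ (l : ℕ) (δ η : ℝ), 0 < δ → 0 < η →
    ∃ a h0 : ℝ, 0 < a ∧ 0 < h0 ∧ ∀ K ∈ 𝒦, ∀ i1 : ℕ, ∃ n0 : ℕ, i1 + l ≤ n0 ∧ ∀ n ≥ n0,
    ∀ (h : ℝ) (S : Form (Fin (k + 1)) p), 0 ≤ h → h ≤ h0 →
    HitL m F d K (i1 + l) (Real.exp (-((d : ℝ) ^ n / (n : ℝ) ^ 4))) h →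
    Cls m K q (a * (d : ℝ) ^ n) S →
    betaL m F d n (i1 + l) q (Real.exp (-(δ * (d : ℝ) ^ (n - i1)))) S ≤
      (2 * h + η) * mass q (om (k + 1) p)

/-- MKS: summation over the levels (as EKS). -/
def T_MKS : Prop :=
  ∀ (m k d p q : ℕ) (F : Fin (k + 1) → MvPolynomial (Fin (k + 1)) ℂ)
    (𝒦 : Set (Set (Fin (k + 1) → ℂ))), m ≤ k → 0 < k → 2 ≤ d → p + q = k → IsM m d F →
    StK F 𝒦 → ConvE m F d (p + 1) 𝒦 → (∀ K ∈ 𝒦, PMainE m F d K) → ∀ η δ : ℝ, 0 < η → 0 < δ →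
    ∃ a : ℝ, 0 < a ∧ ∀ K ∈ 𝒦, ∃ i1 n0 : ℕ, i1 ≤ n0 ∧ ∀ n ≥ n0,
    ∀ S : Form (Fin (k + 1)) p, Cls m K q (a * (d : ℝ) ^ n) S →
    ∑ l ∈ Finset.Icc 1 (n - i1),
      betaL m F d n (i1 + l) q (Real.exp (-(δ / (l : ℝ) ^ 2 * (d : ℝ) ^ (n - i1)))) S ≤
      η * mass q (om (k + 1) p)

/-- MKN: local constancy (as EKN). -/
def T_MKN : Prop :=
  ∀ (m k d p : ℕ) (F : Fin (k + 1) → MvPolynomial (Fin (k + 1)) ℂ)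
    (𝒦 : Set (Set (Fin (k + 1) → ℂ))), m ≤ k → 0 < k → 2 ≤ d → p ≤ k → IsM m d F → StK F 𝒦 →
    ConvE m F d (p + 1) 𝒦 → (∀ K ∈ 𝒦, PMainE m F d K) → (∀ q, LocLipE m k p q) →
    CstE m F d p 𝒦

/-- MKP: local constancy for `m = k + 1` (all coordinates are powers; no critical visits). -/
def T_MKP : Prop :=
  ∀ (k d p : ℕ) (F : Fin (k + 1) → MvPolynomial (Fin (k + 1)) ℂ)
    (𝒦 : Set (Set (Fin (k + 1) → ℂ))), 0 < k → 2 ≤ d → p ≤ k → IsM (k + 1) d F →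
    (∀ q, LocLipE (k + 1) k p q) → CstE (k + 1) F d p 𝒦

/-- MKO: the mean (as EKO, with the bump in place of the Gaussian law). -/
def T_MKO : Prop :=
  ∀ (m k d p : ℕ) (κ : ℝ) (F : Fin (k + 1) → MvPolynomial (Fin (k + 1)) ℂ)
    (𝒦 : Set (Set (Fin (k + 1) → ℂ))), m ≤ k + 1 → 0 < k → 2 ≤ d → p ≤ k → IsM m d F →
    StK F 𝒦 → (∀ K ∈ 𝒦, K ⊆ Zk m κ) → CstE m F d p 𝒦 → (∀ q, p + q = k → TBmp m k p q) →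
    (∀ q, p + q = k → MeanM m k p q) → ConvE m F d p 𝒦

/-- MKZ: the theorem, given the block P (as EKZ). -/
def T_MKZ : Prop :=
  ∀ (m k d p : ℕ) (κ : ℝ) (F : Fin (k + 1) → MvPolynomial (Fin (k + 1)) ℂ)
    (𝒦 : Set (Set (Fin (k + 1) → ℂ))), m ≤ k + 1 → 0 < k → 2 ≤ d → IsM m d F → StK F 𝒦 →
    (∀ K ∈ 𝒦, K ⊆ Zk m κ) → (m ≤ k → ∀ K ∈ 𝒦, PMainE m F d K) → ConvE m F d p 𝒦

end

end Pool.Agent.H92.EM
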