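import Pool.Agent.H92.EM.MRTa

/-!
# Board emd_modules, row MRT: the mean cost of `S`
-/

set_option autoImplicit false

namespace Pool.Agent.H92.EM.MRT

open scoped BigOperators ComplexConjugate ContDiff ComplexOrder
open MeasureTheory Pool.Agent.H92.EQ Pool.Agent.H92.EM
open Pool.Agent.H14.EQ (GP ev_GP')
open Pool.Agent.H73.EM (bth_nonneg bth_cont bth_supp mX_near near_inj mX_cont av_int th0_pos
  comp_ne mixD_lin TF_proj)
open Pool.Agent.H13.EHD (ofReal_int_le ev_cont ev_lin jac_lin)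
open Pool.Agent.H10.EM.MRC (sl bk sl_psd sl_bk bk_psd near_rep near_ne near_det ev_cmp ne_ae)

noncomputable section

variable {k : ℕ}

theorem pull_lin3 {N M p n : ℕ} (G : Fin N → MvPolynomial (Fin M) ℂ) (a : ℂ) (c : Fin n → ℂ)
    (S1 S2 : Form (Fin N) p) (T : Fin n → Form (Fin N) p) (z : Fin M → ℂ) :
    pull G (fun y I J => a * S1 y I J + ∑ r, c r * T r y I J - S2 y I J) z =
      fun I J => a * pull G S1 z I J + ∑ r, c r * pull G (T r) z I J - pull G S2 z I J := by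
  funext I J
  rw [pull_def G, pull_def G S1, pull_def G S2]
  have h1 : ∑ r, c r * pull G (T r) z I J = ∑ I' : Fin p → Fin N, ∑ J' : Fin p → Fin N, ∑ r,
      c r * (T r (ev G z) I' J' * (∏ l, jac G z (I' l) (I l)) *
        ∏ l, conj (jac G z (J' l) (J l))) := by
    simp only [pull_def G, Finset.mul_sum]
    rw [Finset.sum_comm]
    refine Finset.sum_congr rfl fun e _ => ?_
    rw [Finset.sum_comm]
  rw [h1, Finset.mul_sum, ← Finset.sum_add_distrib, ← Finset.sum_sub_distrib]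
  refine Finset.sum_congr rfl fun I' _ => ?_
  rw [Finset.mul_sum, ← Finset.sum_add_distrib, ← Finset.sum_sub_distrib]
  refine Finset.sum_congr rfl fun J' _ => ?_
  rw [sub_mul, sub_mul, add_mul, add_mul, Finset.sum_mul, Finset.sum_mul]
  refine congrArg₂ _ (congrArg₂ _ (by ring) (Finset.sum_congr rfl fun r _ => by ring)) rfl

theorem QT_eq (hW9 : T_W9) {p r : ℕ} (v : Fin r → (Fin (k + 1) → ℂ) → ℝ) (t : ℂ)
    {x : Fin (k + 1) → ℂ} (hx : x ≠ 0) (T : Form (Fin (k + 1 + 1)) p) :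
    QT T (fun l z => v l (tl z)) (ct t x) =
      (mixD (T (ct t x)) (fun j => bk (((0 : ℝ) : ℝ) : ℂ) (sl v x j))).re := by
  unfold QT
  rw [sl_bk hW9 v t hx]

theorem Rf_nonneg (hA4 : T_A4) (hD2 : T_D2) (m : ℕ) {p r : ℕ} {S : Form (Fin (k + 1)) p}
    (hS : ProjForm S) (G : Fin (k + 1) → MvPolynomial (Fin (k + 1 + 1)) ℂ)
    {v : Fin r → (Fin (k + 1) → ℂ) → ℝ} (hv : ∀ l, Pot (v l))
    {X : Fin (k + 1) → Fin (k + 1) → ℂ}
    (hX : ∀ a b, ‖mX m X a b - (1 : Matrix (Fin (k + 1)) (Fin (k + 1)) ℂ) a b‖ ≤ th0 k)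
    {t : ℂ} {x : Fin (k + 1) → ℂ} (hx : x ≠ 0) (hG : ev G (ct t x) ≠ 0) :
    0 ≤ Rf m S G v X t x := by
  unfold Rf
  have h1 : Psd (pull G (pull (lin (mX m X)) S) (ct t x)) := by
    refine hD2 _ _ _ G _ _ (hD2 _ _ _ (lin (mX m X)) S _ (hS.cp.psd _ ?_))
    rw [ev_lin]
    exact fun h => hG (near_inj _ hX _ h)
  exact (Complex.le_def.1 (hA4 _ _ _ _ _ h1 (fun j => bk_psd le_rfl (sl_psd hv hx j)))).1

/-- The pointwise inequality. -/
theorem ptw2 (hB : T_MBU) (hA4 : T_A4) (hD2 : T_D2) (hW9 : T_W9) (m : ℕ) {s r n : ℕ}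
    {S : Form (Fin (k + 1)) (s + 1)} (hS : ProjForm S)
    (G : Fin (k + 1) → MvPolynomial (Fin (k + 1 + 1)) ℂ)
    {v : Fin r → (Fin (k + 1) → ℂ) → ℝ} (hv : ∀ l, Pot (v l)) (C : ℝ)
    (b : Fin n → Fin (k + 1)) (δ c : Fin n → ℝ) {t : ℂ} {x : Fin (k + 1) → ℂ} (hx : x ≠ 0)
    (hG : ev G (ct t x) ≠ 0)
    (h : Psd (fun I J => (C : ℂ) * om (k + 1) (s + 1) (ev G (ct t x)) I J +
        ∑ r, (c r : ℂ) * TF s (b r) (δ r) (ev G (ct t x)) I J - avS m S (ev G (ct t x)) I J)) :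
    ∫⁻ X : Fin (k + 1) → Fin (k + 1) → ℂ,
        ENNReal.ofReal (bth (th0 k) X) * ENNReal.ofReal (Rf m S G v X t x) ≤
      ENNReal.ofReal (C * QT (pull G (om (k + 1) (s + 1))) (fun l z => v l (tl z)) (ct t x) +
        ∑ r, c r * QT (pull G (TF s (b r) (δ r))) (fun l z => v l (tl z)) (ct t x)) := by
  obtain ⟨H, hH⟩ : ∃ H : Fin (r + 1) → Matrix (Fin (k + 1 + 1)) (Fin (k + 1 + 1)) ℂ,
    H = fun j => bk (((0 : ℝ) : ℝ) : ℂ) (sl v x j) := ⟨_, rfl⟩
  have hHp : ∀ j, (H j).PosSemidef := fun j => by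
    rw [hH]
    exact bk_psd le_rfl (sl_psd hv hx j)
  have h1 := av_mix hB m hS G hG H
  have h2 : ∀ X : Fin (k + 1) → Fin (k + 1) → ℂ, bth (th0 k) X * Rf m S G v X t x =
      RCLike.re (((bth (th0 k) X : ℝ) : ℂ) *
        mixD (pull G (pull (lin (mX m X)) S) (ct t x)) H) := by
    intro X
    rw [RCLike.re_eq_complex_re, Complex.re_ofReal_mul, hH]
    rfl
  have h3 : Integrable fun X : Fin (k + 1) → Fin (k + 1) → ℂ =>
      bth (th0 k) X * Rf m S G v X t x := by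
    simp only [h2]
    exact h1.1.re
  have h4 : ∀ X : Fin (k + 1) → Fin (k + 1) → ℂ, 0 ≤ bth (th0 k) X * Rf m S G v X t x := by
    intro X
    rcases eq_or_ne (bth (th0 k) X) 0 with h0 | h0
    · rw [h0, zero_mul]
    · exact mul_nonneg (bth_nonneg hB th0_pos X) (Rf_nonneg hA4 hD2 m hS G hv
        (mX_near m X th0_pos.le (bth_supp hB th0_pos h0)) hx hG)
  have h5 : ∀ X : Fin (k + 1) → Fin (k + 1) → ℂ,
      ENNReal.ofReal (bth (th0 k) X) * ENNReal.ofReal (Rf m S G v X t x) =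
      ENNReal.ofReal (bth (th0 k) X * Rf m S G v X t x) := fun X =>
    (ENNReal.ofReal_mul (bth_nonneg hB th0_pos X)).symm
  simp only [h5]
  rw [← ofReal_integral_eq_lintegral_ofReal h3 (Filter.Eventually.of_forall h4)]
  refine ENNReal.ofReal_le_ofReal ?_
  simp only [h2]
  rw [integral_re h1.1, ← h1.2, RCLike.re_eq_complex_re]
  have h6 := hD2 (Fin (k + 1)) (Fin (k + 1 + 1)) (s + 1) G (fun y I J =>
    (C : ℂ) * om (k + 1) (s + 1) y I J +
      ∑ r, (c r : ℂ) * TF s (b r) (δ r) y I J - avS m S y I J) (ct t x) h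
  rw [pull_lin3 G (C : ℂ) (fun r => (c r : ℂ)) (om (k + 1) (s + 1)) (avS m S)
    (fun r => TF s (b r) (δ r)) (ct t x)] at h6
  have h7 := hA4 (Fin (k + 1 + 1)) (s + 1) (r + 1) _ H h6 hHp
  rw [mixD_lin (C : ℂ) (fun r => (c r : ℂ)) (pull G (om (k + 1) (s + 1)) (ct t x))
    (pull G (avS m S) (ct t x)) (fun r => pull G (TF s (b r) (δ r)) (ct t x))] at h7
  have h8 := (Complex.le_def.1 h7).1
  rw [Complex.zero_re, Complex.sub_re, Complex.add_re, Complex.re_ofReal_mul,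
    Complex.re_sum] at h8
  simp only [Complex.re_ofReal_mul] at h8
  simp only [QT_eq hW9 v t hx]
  rw [← hH]
  linarith

/-- The null sets. -/
theorem ae_Y (hKB : T_KB) (hD11 : T_D11) (hD13 : T_D13) {D : ℕ}
    {Φ : Fin (k + 1) → MvPolynomial (Fin (k + 1)) ℂ} (hD : 1 ≤ D) (hΦ : IsH D Φ)
    {X : Fin (k + 1) → Fin (k + 1) → ℂ} {i j : Fin (k + 1)}
    (hX : ∀ a b, ‖X a b - (1 : Matrix (Fin (k + 1)) (Fin (k + 1)) ℂ) a b‖ ≤ th0 k) {t : ℂ}
    (ht : ‖t - (1 : Matrix (Fin (k + 1)) (Fin (k + 1)) ℂ) i j‖ ≤ th0 k) :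
    ∀ᵐ x : Fin (k + 1) → ℂ, ∀ b, (Matrix.of (rep X i j t)).mulVec (ev Φ x) b ≠ 0 := by
  obtain ⟨A, hA⟩ : ∃ A, A = Matrix.of (rep X i j t) := ⟨_, rfl⟩
  have hAH : IsH (1 * D) (Pool.Agent.H92.EQ.cmp (lin A) Φ) := by
    refine (hD11 (k + 1) 1 D (lin A) Φ le_rfl hD ?_ hΦ).1
    refine (hD13 (k + 1) A A 0).2.2.1 ?_
    rw [hA]
    exact near_det _ (near_rep hX ht)
  rw [← hA]
  refine ae_all_iff.2 fun b => ?_
  filter_upwards [Pool.Agent.H20.EHD.ae_fin _ (Pool.Agent.H92.EQ.cmp (lin A) Φ b)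
    (comp_ne hKB (by omega) hAH b)] with x hx
  rw [← ev_cmp]
  exact hx

/-- The densities of the closed forms. -/
theorem dens (hA4 : T_A4) (hD2 : T_D2) (hTB : T_TB) (hTC : T_TC) (hL1 : T_L1) (hW9 : T_W9)
    {s r D : ℕ} {Φ : Fin (k + 1) → MvPolynomial (Fin (k + 1)) ℂ} (hD : 1 ≤ D) (hΦ : IsH D Φ)
    {X : Fin (k + 1) → Fin (k + 1) → ℂ} {i j : Fin (k + 1)}
    (hX : ∀ a b, ‖X a b - (1 : Matrix (Fin (k + 1)) (Fin (k + 1)) ℂ) a b‖ ≤ th0 k)
    {v : Fin r → (Fin (k + 1) → ℂ) → ℝ} (hv : ∀ l, Pot (v l))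
    {T : Form (Fin (k + 1)) (s + 1)} (hT : ProjForm T) (c0 : ℂ)
    (hc0 : c0 = (1 : Matrix (Fin (k + 1)) (Fin (k + 1)) ℂ) i j) :
    (∀ t ∈ {t : ℂ | ‖t - c0‖ < th0 k},
      IntegrableOn (fun x => QT (pull (GP Φ X i j) T) (fun l z => v l (tl z)) (ct t x))
        {z : Fin (k + 1) → ℂ | 0 ≤ ell z ∧ ell z < 1} ∧
      ∀ x : Fin (k + 1) → ℂ, x ≠ 0 →
        0 ≤ QT (pull (GP Φ X i j) T) (fun l z => v l (tl z)) (ct t x)) ∧
    ContinuousOn (mT (pull (GP Φ X i j) T) (fun l z => v l (tl z)))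
      {t : ℂ | ‖t - c0‖ < th0 k} := by
  obtain ⟨V, hVd⟩ : ∃ V : Set ℂ, V = {t : ℂ | ‖t - c0‖ < th0 k} := ⟨_, rfl⟩
  have hV : IsOpen V := by
    rw [hVd]
    exact isOpen_lt (continuous_id.sub continuous_const).norm continuous_const
  have hVt : ∀ t ∈ V, ‖t - (1 : Matrix (Fin (k + 1)) (Fin (k + 1)) ℂ) i j‖ ≤ th0 k := by
    intro t ht
    rw [hVd] at ht
    rw [← hc0]
    exact le_of_lt ht
  rw [← hVd]
  have hG1 : ∀ (l : ℂ) (z : Fin (k + 1 + 1) → ℂ),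
      ev (GP Φ X i j) (ct (z 0) (l • tl z)) = l ^ D • ev (GP Φ X i j) z := by
    intro l z
    rw [ev_GP', ev_GP']
    have h1 : tl (ct (z 0) (l • tl z)) = l • tl z := rfl
    have h2 : ct (z 0) (l • tl z) 0 = z 0 := rfl
    rw [h1, h2, Pool.Agent.H14.EQ.ev_smul hΦ, Matrix.mulVec_smul]
  have hG2 : ∀ z ∈ WV (k + 1) V, ev (GP Φ X i j) z ≠ 0 := by
    intro z hz
    rw [ev_GP']
    exact near_ne _ (near_rep hX (hVt _ hz.1)) fun h0 => hz.2 (hΦ.nd _ h0)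
  obtain ⟨hFT, -, -⟩ := hTB (k + 1) (s + 1) D V (GP Φ X i j) T hV hD hG1 hG2 hT
  have hLv : ∀ l, LHT V 1 (fun z => v l (tl z)) := fun l =>
    Pool.Agent.H14.EQ.lht_tl ((hL1 (k + 1) 1 1 1 1 (v l) (v l)).2.2.1 (hv l))
  have hall := hTC (k + 1) (s + 1) r V (pull (GP Φ X i j) T) (fun l z => v l (tl z))
    (fun _ => 1) hV hFT hLv
  refine ⟨fun t ht => ⟨?_, fun x hx => ?_⟩, hall.2.2.2.2⟩
  · refine Pool.Agent.H14.EQ.shell_int (Nat.succ_pos k) ?_
    have hct : Continuous (fun x : Fin (k + 1) → ℂ => ct t x) :=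
      ct_cont.comp (continuous_const.prodMk continuous_id)
    exact hall.2.2.2.1.comp hct.continuousOn fun x hx => ⟨ht, hx⟩
  · rw [QT_eq hW9 v t hx]
    have h1 : Psd (pull (GP Φ X i j) T (ct t x)) :=
      hD2 _ _ _ _ _ _ (hT.cp.psd _ (hG2 _ ⟨ht, hx⟩))
    exact (Complex.le_def.1 (hA4 _ _ _ _ _ h1 (fun j => bk_psd le_rfl (sl_psd hv hx j)))).1

/-- The sum of the costs. -/
theorem last_step {n : ℕ} {C1 C2 A d : ℝ} (hC1 : 0 ≤ C1) (hC2 : 0 ≤ C2) (hA : 0 ≤ A)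
    (hd : 0 ≤ d) (δ c : Fin n → ℝ) (hb : ∀ r, 0 < δ r ∧ δ r ≤ 1 ∧ 0 ≤ c r)
    (hcs : ∑ r, c r ≤ C1) (hcl : ∑ r, c r * Real.log (1 / δ r) ≤ C1 * (1 + A)) :
    ENNReal.ofReal C1 * ENNReal.ofReal (C2 * d) +
      ∑ r, ENNReal.ofReal (c r) * ENNReal.ofReal (C2 * (1 + Real.log (1 / δ r)) * d) ≤
    ENNReal.ofReal (3 * C1 * C2 * (1 + A) * d) := by
  have hlog : ∀ r, 0 ≤ Real.log (1 / δ r) := by
    intro r
    refine Real.log_nonneg ?_
    rw [le_div_iff₀ (hb r).1]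
    linarith [(hb r).2.1]
  have e1 : ∀ r, ENNReal.ofReal (c r) * ENNReal.ofReal (C2 * (1 + Real.log (1 / δ r)) * d) =
      ENNReal.ofReal (c r * (C2 * (1 + Real.log (1 / δ r)) * d)) := fun r =>
    (ENNReal.ofReal_mul (hb r).2.2).symm
  have hnn : ∀ r, 0 ≤ c r * (C2 * (1 + Real.log (1 / δ r)) * d) := fun r =>
    mul_nonneg (hb r).2.2 (mul_nonneg (mul_nonneg hC2 (by linarith [hlog r])) hd)
  simp only [e1]
  rw [← ENNReal.ofReal_mul hC1, ← ENNReal.ofReal_sum_of_nonneg fun r _ => hnn r,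
    ← ENNReal.ofReal_add (by positivity) (Finset.sum_nonneg fun r _ => hnn r)]
  refine ENNReal.ofReal_le_ofReal ?_
  have e2 : ∑ r, c r * (C2 * (1 + Real.log (1 / δ r)) * d) =
      C2 * d * (∑ r, c r + ∑ r, c r * Real.log (1 / δ r)) := by
    rw [← Finset.sum_add_distrib, Finset.mul_sum]
    exact Finset.sum_congr rfl fun r _ => by ring
  rw [e2]
  have e3 : C2 * d * (∑ r, c r + ∑ r, c r * Real.log (1 / δ r)) ≤
      C2 * d * (C1 + C1 * (1 + A)) :=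
    mul_le_mul_of_nonneg_left (add_le_add hcs hcl) (by positivity)
  have e4 : 0 ≤ C1 * C2 * d * A := by positivity
  nlinarith

theorem pf_MRT (hMSZ : T_MSZ) (hMRC : T_MRC) (hB : T_MBU) (hKB : T_KB) (hA4 : T_A4)
    (hD2 : T_D2) (hD6 : T_D6) (hD7 : T_D7) (hD11 : T_D11) (hD13 : T_D13) (hTB : T_TB)
    (hTC : T_TC) (hL1 : T_L1) (hL5 : T_L5) (hW6 : T_W6) (hW9 : T_W9) : T_MRT := by
  intro m k s q κ hm hk
  obtain ⟨C1, hC1, h1⟩ := hMSZ m k s q κ hm hk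
  obtain ⟨C2, hC2, h2⟩ := hMRC k s q hk
  refine ⟨3 * C1 * C2, by positivity, ?_⟩
  intro S A hA hS hK hLM hmass D Φ hD hΦ X i j hX v hv
  obtain ⟨n, b, δ, c, hb, hcs, hcl, hpsd⟩ := h1 S A hA hS hK hLM hmass
  obtain ⟨hom, hTF⟩ := h2 D Φ hD hΦ X i j hX v hv
  obtain ⟨c0, hc0⟩ : ∃ c0, c0 = (1 : Matrix (Fin (k + 1)) (Fin (k + 1)) ℂ) i j := ⟨_, rfl⟩
  rw [← hc0] at hom hTF ⊢
  obtain ⟨Sh, hSh⟩ : ∃ Sh, Sh = {z : Fin (k + 1) → ℂ | 0 ≤ ell z ∧ ell z < 1} := ⟨_, rfl⟩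
  obtain ⟨Ba, hBa⟩ : ∃ Ba, Ba = {t : ℂ | ‖t - c0‖ < th0 k} := ⟨_, rfl⟩
  have hBm : MeasurableSet Ba := by
    rw [hBa]
    exact measurableSet_lt ((measurable_id.sub_const c0).norm) measurable_const
  have hBt : ∀ t ∈ Ba, ‖t - (1 : Matrix (Fin (k + 1)) (Fin (k + 1)) ℂ) i j‖ ≤ th0 k := by
    intro t ht
    rw [hBa] at ht
    rw [← hc0]
    exact le_of_lt ht
  obtain ⟨lw, hlw⟩ : ∃ lw : ℂ → ENNReal,
    lw = fun t => ENNReal.ofReal (Real.log (th0 k / ‖t - c0‖)) := ⟨_, rfl⟩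
  have hlwm : Measurable lw := by
    rw [hlw]
    exact (Real.measurable_log.comp
      ((measurable_id.sub_const c0).norm.const_div (th0 k))).ennreal_ofReal
  have hlwt : ∀ t, lw t ≠ ⊤ := fun t => by rw [hlw]; exact ENNReal.ofReal_ne_top
  have hae : ∀ᵐ x ∂(volume.restrict Sh), x ≠ 0 := ae_restrict_of_ae ne_ae
  obtain ⟨G, hG⟩ : ∃ G, G = GP Φ X i j := ⟨_, rfl⟩
  have hevG : ∀ (t : ℂ) (x : Fin (k + 1) → ℂ),
      ev G (ct t x) = (Matrix.of (rep X i j t)).mulVec (ev Φ x) := by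
    intro t x
    rw [hG, ev_GP']
    rfl
  obtain ⟨v', hv'⟩ : ∃ v' : Fin (q + 1) → (Fin (k + 1 + 1) → ℂ) → ℝ,
    v' = fun l z => v l (tl z) := ⟨_, rfl⟩
  obtain ⟨F, hF⟩ : ∃ F : (Fin (k + 1) → Fin (k + 1) → ℂ) → ℂ → (Fin (k + 1) → ℂ) → ENNReal,
    F = fun X' t x => lw t * (ENNReal.ofReal (bth (th0 k) X') *
      ENNReal.ofReal (Rf m S G v X' t x)) := ⟨_, rfl⟩
  have hFm : Measurable fun P : (Fin (k + 1) → Fin (k + 1) → ℂ) × (ℂ × (Fin (k + 1) → ℂ)) =>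
      F P.1 P.2.1 P.2.2 := by
    rw [hF]
    exact (hlwm.comp (measurable_fst.comp measurable_snd)).mul
      (((bth_cont hB th0_pos).measurable.comp measurable_fst).ennreal_ofReal.mul
        (Rf_meas hW6 m hS G hv).ennreal_ofReal)
  have hFm2 : Measurable fun P : ((Fin (k + 1) → Fin (k + 1) → ℂ) × ℂ) × (Fin (k + 1) → ℂ) =>
      F P.1.1 P.1.2 P.2 := by
    have h3 : Measurable fun P : ((Fin (k + 1) → Fin (k + 1) → ℂ) × ℂ) × (Fin (k + 1) → ℂ) =>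
        (P.1.1, (P.1.2, P.2)) :=
      (measurable_fst.comp measurable_fst).prodMk
        ((measurable_snd.comp measurable_fst).prodMk measurable_snd)
    have h4 := Measurable.comp hFm h3
    exact h4
  have hFm3 : ∀ t : ℂ, Measurable fun P : (Fin (k + 1) → Fin (k + 1) → ℂ) ×
      (Fin (k + 1) → ℂ) => F P.1 t P.2 := by
    intro t
    have h3 : Measurable fun P : (Fin (k + 1) → Fin (k + 1) → ℂ) × (Fin (k + 1) → ℂ) =>
        (P.1, (t, P.2)) := measurable_fst.prodMk (measurable_const.prodMk measurable_snd)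
    have h4 := Measurable.comp hFm h3
    exact h4
  -- the densities
  have hdo := dens hA4 hD2 hTB hTC hL1 hW9 hD hΦ hX hv (hD7 (k + 1) (s + 1)).1 c0 hc0
  have hdt : ∀ r, _ := fun r => dens hA4 hD2 hTB hTC hL1 hW9 hD hΦ hX hv
    (TF_proj hL5 hD6 hD7 s (b r) (hb r).2.1) c0 hc0
  rw [← hG, ← hBa, ← hSh, ← hv'] at hdo
  simp only [← hG, ← hBa, ← hSh, ← hv'] at hdt
  rw [← hG, ← hBa, ← hv'] at hom
  rw [← hG, ← hBa, ← hv']
  have hTF' : ∀ r, ∫⁻ t in Ba, lw t * ENNReal.ofReal (mT (pull G (TF s (b r) (δ r))) v' t) ≤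
      ENNReal.ofReal (C2 * (1 + Real.log (1 / δ r)) * (D : ℝ) ^ s) := by
    intro r
    have h3 := hTF (b r) (δ r) (hb r).2.1 (hb r).2.2.1
    rw [← hG, ← hBa, ← hv'] at h3
    rw [hlw]
    exact h3
  have hom' : ∫⁻ t in Ba, lw t * ENNReal.ofReal (mT (pull G (om (k + 1) (s + 1))) v' t) ≤
      ENNReal.ofReal (C2 * (D : ℝ) ^ s) := by
    rw [hlw]
    exact hom
  -- step a
  have stepa : ∀ X' : Fin (k + 1) → Fin (k + 1) → ℂ, ENNReal.ofReal (bth (th0 k) X') *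
      (∫⁻ t in Ba, lw t * ENNReal.ofReal (mT (pull G (pull (lin (mX m X')) S)) v' t)) ≤
      ∫⁻ t in Ba, ∫⁻ x in Sh, F X' t x := by
    intro X'
    rw [← lintegral_const_mul' _ _ ENNReal.ofReal_ne_top]
    refine lintegral_mono fun t => ?_
    have h3 : ENNReal.ofReal (mT (pull G (pull (lin (mX m X')) S)) v' t) ≤
        ∫⁻ x in Sh, ENNReal.ofReal (Rf m S G v X' t x) := by
      unfold mT Iint
      rw [← hSh]
      refine (ofReal_int_le _).trans (le_of_eq (lintegral_congr_ae ?_))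
      filter_upwards [hae] with x hx
      rw [hv', QT_eq hW9 v t hx]
      rfl
    calc _ = lw t * (ENNReal.ofReal (bth (th0 k) X') *
          ENNReal.ofReal (mT (pull G (pull (lin (mX m X')) S)) v' t)) := by ring
      _ ≤ lw t * (ENNReal.ofReal (bth (th0 k) X') *
          ∫⁻ x in Sh, ENNReal.ofReal (Rf m S G v X' t x)) :=
          mul_le_mul_right (mul_le_mul_right h3 _) _
      _ = _ := by
          rw [← lintegral_const_mul' _ _ ENNReal.ofReal_ne_top,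
            ← lintegral_const_mul' _ _ (hlwt t), hF]
  -- step b
  have stepb : ∀ t ∈ Ba, ∫⁻ x in Sh, ∫⁻ X' : Fin (k + 1) → Fin (k + 1) → ℂ, F X' t x ≤
      ENNReal.ofReal C1 * (lw t * ENNReal.ofReal (mT (pull G (om (k + 1) (s + 1))) v' t)) +
      ∑ r, ENNReal.ofReal (c r) *
        (lw t * ENNReal.ofReal (mT (pull G (TF s (b r) (δ r))) v' t)) := by
    intro t ht
    obtain ⟨Qo, hQo⟩ : ∃ Qo : (Fin (k + 1) → ℂ) → ℝ,
      Qo = fun x => QT (pull G (om (k + 1) (s + 1))) v' (ct t x) := ⟨_, rfl⟩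
    obtain ⟨Qt, hQt⟩ : ∃ Qt : Fin n → (Fin (k + 1) → ℂ) → ℝ,
      Qt = fun r x => QT (pull G (TF s (b r) (δ r))) v' (ct t x) := ⟨_, rfl⟩
    have hoi : IntegrableOn Qo Sh := hQo ▸ (hdo.1 t ht).1
    have hon : ∀ x, x ≠ 0 → 0 ≤ Qo x := hQo ▸ (hdo.1 t ht).2
    have hti : ∀ r, IntegrableOn (Qt r) Sh := fun r => by
      rw [hQt]
      exact ((hdt r).1 t ht).1
    have htn : ∀ r x, x ≠ 0 → 0 ≤ Qt r x := fun r => by
      rw [hQt]
      exact ((hdt r).1 t ht).2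
    have hmo : mT (pull G (om (k + 1) (s + 1))) v' t = ∫ x in Sh, Qo x := by
      rw [hQo, hSh]
      rfl
    have hmt : ∀ r, mT (pull G (TF s (b r) (δ r))) v' t = ∫ x in Sh, Qt r x := fun r => by
      rw [hQt, hSh]
      rfl
    have hY := ae_Y hKB hD11 hD13 hD hΦ hX (hBt t ht)
    have hle : ∫⁻ x in Sh, ∫⁻ X' : Fin (k + 1) → Fin (k + 1) → ℂ, F X' t x ≤
        ∫⁻ x in Sh, lw t * ENNReal.ofReal (C1 * Qo x + ∑ r, c r * Qt r x) := by
      refine lintegral_mono_ae ?_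
      filter_upwards [hae, ae_restrict_of_ae hY] with x hx hyx
      rw [hF]
      simp only
      rw [lintegral_const_mul' _ _ (hlwt t)]
      refine mul_le_mul_right ?_ _
      have hy0 : ev G (ct t x) ≠ 0 := by
        rw [hevG]
        exact near_ne _ (near_rep hX (hBt t ht)) fun h0 => hx (hΦ.nd _ h0)
      have h3 := ptw2 hB hA4 hD2 hW9 m hS G hv C1 b δ c hx hy0
        (hpsd (ev G (ct t x)) hy0 (fun a _ => by rw [hevG]; exact hyx a))
      rw [hQo, hQt, hv']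
      exact h3
    refine hle.trans ?_
    rw [lintegral_const_mul' _ _ (hlwt t)]
    have hcalc : ∫⁻ x in Sh, ENNReal.ofReal (C1 * Qo x + ∑ r, c r * Qt r x) =
        ENNReal.ofReal (C1 * (∫ x in Sh, Qo x) + ∑ r, c r * ∫ x in Sh, Qt r x) := by
      have hint : IntegrableOn (fun x => C1 * Qo x + ∑ r, c r * Qt r x) Sh :=
        (hoi.const_mul C1).add (integrable_finsetSum _ fun r _ => (hti r).const_mul (c r))
      rw [← ofReal_integral_eq_lintegral_ofReal hint]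
      · refine congrArg ENNReal.ofReal ?_
        rw [integral_add (hoi.const_mul C1)
          (integrable_finsetSum _ fun r _ => (hti r).const_mul (c r)), integral_const_mul,
          integral_finsetSum _ fun r _ => (hti r).const_mul (c r)]
        simp only [integral_const_mul]
      · filter_upwards [hae] with x hx
        exact add_nonneg (mul_nonneg hC1.le (hon x hx))
          (Finset.sum_nonneg fun r _ => mul_nonneg (hb r).2.2.2 (htn r x hx))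
    rw [hcalc, hmo]
    simp only [hmt]
    have hIn : ∀ r, 0 ≤ ∫ x in Sh, Qt r x := fun r => by
      refine integral_nonneg_of_ae ?_
      filter_upwards [hae] with x hx using htn r x hx
    have hIo : 0 ≤ ∫ x in Sh, Qo x := by
      refine integral_nonneg_of_ae ?_
      filter_upwards [hae] with x hx using hon x hx
    rw [ENNReal.ofReal_add (mul_nonneg hC1.le hIo)
      (Finset.sum_nonneg fun r _ => mul_nonneg (hb r).2.2.2 (hIn r)),
      ENNReal.ofReal_sum_of_nonneg fun r _ => mul_nonneg (hb r).2.2.2 (hIn r),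
      ENNReal.ofReal_mul hC1.le, mul_add, Finset.mul_sum]
    refine le_of_eq (congrArg₂ _ (by ring) (Finset.sum_congr rfl fun r _ => ?_))
    rw [ENNReal.ofReal_mul (hb r).2.2.2]
    ring
  have hmom : AEMeasurable (fun t => lw t *
      ENNReal.ofReal (mT (pull G (om (k + 1) (s + 1))) v' t)) (volume.restrict Ba) :=
    hlwm.aemeasurable.mul (hdo.2.aemeasurable hBm).ennreal_ofReal
  have hmtm : ∀ r, AEMeasurable (fun t => lw t *
      ENNReal.ofReal (mT (pull G (TF s (b r) (δ r))) v' t)) (volume.restrict Ba) := fun r =>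
    hlwm.aemeasurable.mul ((hdt r).2.aemeasurable hBm).ennreal_ofReal
  calc _ ≤ ∫⁻ X' : Fin (k + 1) → Fin (k + 1) → ℂ, ∫⁻ t in Ba, ∫⁻ x in Sh, F X' t x := by
        refine lintegral_mono fun X' => ?_
        have h3 := stepa X'
        rw [hlw] at h3
        exact h3
    _ = ∫⁻ t in Ba, ∫⁻ X' : Fin (k + 1) → Fin (k + 1) → ℂ, ∫⁻ x in Sh, F X' t x := by
        refine lintegral_lintegral_swap (Measurable.aemeasurable ?_)
        exact hFm2.lintegral_prod_right'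
    _ = ∫⁻ t in Ba, ∫⁻ x in Sh, ∫⁻ X' : Fin (k + 1) → Fin (k + 1) → ℂ, F X' t x := by
        refine lintegral_congr fun t => ?_
        exact lintegral_lintegral_swap (hFm3 t).aemeasurable
    _ ≤ ∫⁻ t in Ba, (ENNReal.ofReal C1 *
          (lw t * ENNReal.ofReal (mT (pull G (om (k + 1) (s + 1))) v' t)) +
        ∑ r, ENNReal.ofReal (c r) *
          (lw t * ENNReal.ofReal (mT (pull G (TF s (b r) (δ r))) v' t))) :=
        setLIntegral_mono' hBm stepb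
    _ = ENNReal.ofReal C1 * (∫⁻ t in Ba,
          lw t * ENNReal.ofReal (mT (pull G (om (k + 1) (s + 1))) v' t)) +
        ∑ r, ENNReal.ofReal (c r) * ∫⁻ t in Ba,
          lw t * ENNReal.ofReal (mT (pull G (TF s (b r) (δ r))) v' t) := by
        rw [lintegral_add_left' (hmom.const_mul _),
          lintegral_const_mul' _ _ ENNReal.ofReal_ne_top,
          lintegral_finsetSum' _ fun r _ => (hmtm r).const_mul _]
        refine congrArg₂ _ rfl (Finset.sum_congr rfl fun r _ => ?_)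
        exact lintegral_const_mul' _ _ ENNReal.ofReal_ne_top
    _ ≤ ENNReal.ofReal C1 * ENNReal.ofReal (C2 * (D : ℝ) ^ s) +
        ∑ r, ENNReal.ofReal (c r) *
          ENNReal.ofReal (C2 * (1 + Real.log (1 / δ r)) * (D : ℝ) ^ s) :=
        add_le_add (mul_le_mul_right hom' _)
          (Finset.sum_le_sum fun r _ => mul_le_mul_right (hTF' r) _)
    _ ≤ _ := last_step hC1.le hC2.le hA (by positivity) δ c (fun r => (hb r).2) hcs hcl

end

end Pool.Agent.H92.EM.MRT
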