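import Pool.Agent.H92.EM.TB

/-!
Board emd_modules (MP_75a732_an), block P: near critical visits (lower Jacobian), and the theorem.
As block P of ehd_modules, with the hyperplanes `z_i = 0`, `i < m`; all densities `σ` are
supported in `Zk m κ`, which is stable by preimages.
-/

namespace Pool.Agent.H92.EM

open scoped BigOperators ComplexConjugate ContDiff ComplexOrder
open MeasureTheory Pool.Agent.H92.EQ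

noncomputable section

section defs

variable {k : ℕ}

/-- Hypotheses on the polynomial `P` (norm of the lower Jacobian). -/
structure NormE (m : ℕ) (F : Fin (k + 1) → MvPolynomial (Fin (k + 1)) ℂ)
    (P : MvPolynomial (Fin (k + 1)) ℂ) (M : ℕ) : Prop where
  ne : P ≠ 0
  hom : P.IsHomogeneous M
  pos : 1 ≤ M
  nx : ∀ b : Fin (k + 1), (b : ℕ) < m → ¬ MvPolynomial.X b ∣ P
  dvd : lowP m F ∣ MvPolynomial.bind₁ F P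

/-- The bound of the first visit. -/
def FVis (m : ℕ) (κ : ℝ) (F : Fin (k + 1) → MvPolynomial (Fin (k + 1)) ℂ) (d : ℕ)
    (P : MvPolynomial (Fin (k + 1)) ℂ) (M : ℕ) (C : ℝ) : Prop :=
  ∀ (r : ℝ) (j : ℕ) (σ : Form (Fin (k + 1)) k), 0 < r → r ≤ 1 / 2 → 1 ≤ j → ProjForm σ →
    InK (Zk m κ) σ →
    EE F d j σ (fun x => noV F (vis P M r) j 0 j x * vis P M r x) ≤
      C * (j / (d : ℝ) ^ j + 1 / Real.log (1 / r)) * mass 0 σ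

end defs

/-- MPM: norms which are not divisible by the `X b`, `b < m` (as EPM). -/
def T_MPM : Prop :=
  ∀ (m k D e : ℕ) (Φ : Fin (k + 1) → MvPolynomial (Fin (k + 1)) ℂ)
    (h : MvPolynomial (Fin (k + 1)) ℂ), 1 ≤ D → IsM m D Φ → h.IsHomogeneous e → h ≠ 0 →
    (∀ b : Fin (k + 1), (b : ℕ) < m → ¬ MvPolynomial.X b ∣ h) →
    ∃ (h' : MvPolynomial (Fin (k + 1)) ℂ) (e' : ℕ), h' ≠ 0 ∧ h'.IsHomogeneous e' ∧
      (∀ b : Fin (k + 1), (b : ℕ) < m → ¬ MvPolynomial.X b ∣ h') ∧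
      h ∣ MvPolynomial.bind₁ Φ h'

/-- MPN: the norm of the lower Jacobian (as EPN). -/
def T_MPN : Prop :=
  ∀ (m k d : ℕ) (F : Fin (k + 1) → MvPolynomial (Fin (k + 1)) ℂ), m ≤ k → 0 < k → 2 ≤ d →
    IsM m d F → ∃ (P : MvPolynomial (Fin (k + 1)) ℂ) (M : ℕ), NormE m F P M

/-- MPR: the relative lower Jacobian on paths without visits (as EPR). -/
def T_MPR : Prop :=
  ∀ (m k d M : ℕ) (F : Fin (k + 1) → MvPolynomial (Fin (k + 1)) ℂ)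
    (P : MvPolynomial (Fin (k + 1)) ℂ), m ≤ k → 0 < k → 2 ≤ d → IsM m d F → NormE m F P M →
    ∃ c : ℝ, 0 < c ∧ c ≤ 1 ∧
    (∀ (x : Fin (k + 1) → ℂ), x ≠ 0 →
      c * nv P M (ev F x) ≤ nv (lowP m F) ((k + 1 - m) * (d - 1)) x) ∧
    ∀ (j : ℕ) (r : ℝ) (x : Fin (k + 1) → ℂ), x ≠ 0 → 0 < r → r ≤ 1 →
      (∀ i, 1 ≤ i → i ≤ j → r ≤ nv P M (ev (iter F i) x)) →
      (c * r) ^ j ≤ relL m (iter F j) x

/-- MPG: the estimate for the closed forms (from EPG by a permutation of the coordinates). -/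
def T_MPG : Prop :=
  ∀ (k M : ℕ) (b : Fin (k + 1 + 1)) (P : MvPolynomial (Fin (k + 1 + 1)) ℂ),
    P.IsHomogeneous M → 1 ≤ M → ¬ MvPolynomial.X b ∣ P → ∃ C : ℝ, ∀ δ r : ℝ, 0 < δ → δ ≤ 1 →
    0 < r → r ≤ 1 →
    pair (fun z => -(1 / 2) * Real.log (nv P M z ^ 2 + r ^ 2)) (TF k b δ)
      (fun _ : Fin 0 => ell) ≤ C

/-- MPL: the estimate for the pull-backs (as EPL). -/
def T_MPL : Prop :=
  ∀ (m k d M : ℕ) (F : Fin (k + 1 + 1) → MvPolynomial (Fin (k + 1 + 1)) ℂ)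
    (P : MvPolynomial (Fin (k + 1 + 1)) ℂ), m ≤ k + 1 + 1 → 2 ≤ d → IsM m d F →
    P.IsHomogeneous M → 1 ≤ M → P ≠ 0 →
    (∀ b : Fin (k + 1 + 1), (b : ℕ) < m → ¬ MvPolynomial.X b ∣ P) →
    ∃ C : ℝ, ∀ (j : ℕ) (r : ℝ), 0 < r → r ≤ 1 →
      EE F d j (om (k + 1 + 1) (k + 1)) (fun z => -(1 / 2) * Real.log (nv P M z ^ 2 + r ^ 2)) ≤
        C ∧
      ∀ (b : Fin (k + 1 + 1)) (δ : ℝ), (b : ℕ) < m → 0 < δ → δ ≤ 1 →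
        EE F d j (TF k b δ) (fun z => -(1 / 2) * Real.log (nv P M z ^ 2 + r ^ 2)) ≤ C

/-- MPA: the mean over the group of a density in `Zk m κ`. -/
def T_MPA : Prop :=
  ∀ (m k : ℕ) (κ : ℝ), m ≤ k + 1 + 1 → ∃ C : ℝ, 0 < C ∧ ∀ (D : ℕ)
    (Φ : Fin (k + 1 + 1) → MvPolynomial (Fin (k + 1 + 1)) ℂ), 1 ≤ D → IsH D Φ →
    ∀ (φ : (Fin (k + 1 + 1) → ℂ) → ℝ) (u : Fin 0 → (Fin (k + 1 + 1) → ℂ) → ℝ)
    (σ : Form (Fin (k + 1 + 1)) (k + 1)) (B : ℝ), Hom0 φ → (∀ z, z ≠ 0 → 0 ≤ φ z) →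
    ProjForm σ → InK (Zk m κ) σ → 0 ≤ B →
    pair φ (pull Φ (om (k + 1 + 1) (k + 1))) u ≤ B →
    (∀ (b : Fin (k + 1 + 1)) (δ : ℝ), (b : ℕ) < m → 0 < δ → δ ≤ 1 →
      pair φ (pull Φ (TF k b δ)) u ≤ B) →
    ∫ X : Fin (k + 1 + 1) → Fin (k + 1 + 1) → ℂ,
      bth (th0 (k + 1)) X * am φ Φ σ u (mX m X) ≤ C * B * mass 0 σ

/-- MPF: the first visit (as EPF). -/
def T_MPF : Prop :=
  ∀ (m k d M : ℕ) (κ : ℝ) (F : Fin (k + 1 + 1) → MvPolynomial (Fin (k + 1 + 1)) ℂ)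
    (P : MvPolynomial (Fin (k + 1 + 1)) ℂ), m ≤ k + 1 → 2 ≤ d → IsM m d F → NormE m F P M →
    LocLipE m (k + 1) (k + 1) 0 → TBmp m (k + 1) (k + 1) 0 →
    ∃ C : ℝ, 0 < C ∧ FVis m κ F d P M C

/-- MPC: escape (as EPC). -/
def T_MPC : Prop :=
  ∀ (m k d M : ℕ) (κ : ℝ) (F : Fin (k + 1) → MvPolynomial (Fin (k + 1)) ℂ)
    (P : MvPolynomial (Fin (k + 1)) ℂ) (CF : ℝ), m ≤ k → 0 < k → 2 ≤ d → IsM m d F →
    ev F ⁻¹' (Zk m κ) ⊆ Zk m κ → P.IsHomogeneous M → 1 ≤ M → P ≠ 0 →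
    (∀ b : Fin (k + 1), (b : ℕ) < m → ¬ MvPolynomial.X b ∣ P) → 0 < CF →
    FVis m κ F d P M CF →
    ∃ (t s A : ℕ) (h : Fin s → MvPolynomial (Fin (k + 1)) ℂ) (e : Fin s → ℕ)
      (C δ c r0 ε0 : ℝ), InvS F h e C ∧
    (∀ b : Fin (k + 1), (b : ℕ) < m → ∃ z : Fin (k + 1) → ℂ, z ≠ 0 ∧ z b = 0 ∧
      ∃ i, MvPolynomial.eval z (h i) ≠ 0) ∧
    0 < δ ∧ δ < 1 ∧ 0 < c ∧ 0 < r0 ∧ r0 ≤ 1 / 2 ∧ 0 < ε0 ∧
    ∀ (r : ℝ) (L : ℕ) (σ : Form (Fin (k + 1)) k), 0 < r → r ≤ r0 → t ≤ L →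
      L ≤ ε0 * Real.log (1 / r) → ProjForm σ → InK (Zk m κ) σ →
      InK {z | r / c ≤ phi h e z ^ A} σ →
      δ * mass 0 σ ≤ EE F d L σ (noV F (vis P M r) L t (L + 1))

/-- MPE: renewal (as EPE). -/
def T_MPE : Prop :=
  ∀ (m k d M : ℕ) (κ : ℝ) (F : Fin (k + 1) → MvPolynomial (Fin (k + 1)) ℂ)
    (P : MvPolynomial (Fin (k + 1)) ℂ) (CF : ℝ) (t s A : ℕ)
    (h : Fin s → MvPolynomial (Fin (k + 1)) ℂ) (e : Fin s → ℕ) (C δ c r0 ε0 : ℝ),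
    2 ≤ d → IsM m d F → ev F ⁻¹' (Zk m κ) ⊆ Zk m κ → P ≠ 0 → P.IsHomogeneous M → 1 ≤ M →
    0 < CF → FVis m κ F d P M CF →
    InvS F h e C → 0 < δ → δ < 1 → 0 < c → 0 < r0 → r0 ≤ 1 / 2 → 0 < ε0 →
    (∀ (r : ℝ) (L : ℕ) (σ : Form (Fin (k + 1)) k), 0 < r → r ≤ r0 → t ≤ L →
      L ≤ ε0 * Real.log (1 / r) → ProjForm σ → InK (Zk m κ) σ →
      InK {z | r / c ≤ phi h e z ^ A} σ →
      δ * mass 0 σ ≤ EE F d L σ (noV F (vis P M r) L t (L + 1))) →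
    ∀ (s0 c2 : ℝ), 0 < s0 → 0 < c2 → ∃ (θ B : ℝ) (n0 : ℕ), 1 < θ ∧ 0 < B ∧ ∀ n ≥ n0, ∀ i ≤ n,
    ∀ σ : Form (Fin (k + 1)) k, ProjForm σ → InK (Zk m κ) σ → InK {z | s0 ≤ phi h e z} σ →
      EE F d i σ (vis P M (c2 * Real.exp (-((d : ℝ) ^ n / (n : ℝ) ^ 4)))) ≤
        B / θ ^ i * mass 0 σ

/-- MPZ: the block P (as EPZ). -/
def T_MPZ : Prop :=
  ∀ (m k d : ℕ) (κ : ℝ) (F : Fin (k + 1) → MvPolynomial (Fin (k + 1)) ℂ)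
    (K : Set (Fin (k + 1) → ℂ)), m ≤ k → 0 < k → 2 ≤ d → IsM m d F →
    ev F ⁻¹' (Zk m κ) ⊆ Zk m κ → K ⊆ Zk m κ → LocLipE m k k 0 → TBmp m k k 0 →
    AwayE m F K → PMainE m F d K

/-! ### The theorem -/

/-- MZK: the sets `Zk m κ`. -/
def T_MZK : Prop :=
  ∀ (m k d : ℕ) (F : Fin (k + 1) → MvPolynomial (Fin (k + 1)) ℂ), m ≤ k + 1 → 0 < k → 2 ≤ d →
    IsM m d F → ∃ κ : ℝ, 0 ≤ κ ∧ ev F ⁻¹' (Zk m κ) ⊆ Zk m κ ∧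
    ∀ K : Set (Fin (k + 1) → ℂ), AwayE m F K → ∃ i : ℕ, ev (iter F i) ⁻¹' K ⊆ Zk m κ

/-- MAW: the family is stable by preimages (as EAW). -/
def T_MAW : Prop :=
  ∀ (m k d : ℕ) (F : Fin (k + 1) → MvPolynomial (Fin (k + 1)) ℂ), 2 ≤ d → IsM m d F →
    StK F {K | AwayE m F K}

/-- MFI: the theorem (as EFI). -/
def T_MFI : Prop :=
  ∀ (m k d p q : ℕ) (F : Fin (k + 1) → MvPolynomial (Fin (k + 1)) ℂ)
    (K : Set (Fin (k + 1) → ℂ)) (φ : (Fin (k + 1) → ℂ) → ℝ)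
    (u : Fin q → (Fin (k + 1) → ℂ) → ℝ), m ≤ k + 1 → 0 < k → 2 ≤ d → p + q = k → IsM m d F →
    AwayE m F K → Hom0 φ → (∀ j, Pot (u j)) →
    ∃ L : ℝ, Filter.Tendsto (fun n => pair φ (Sn F d n (om (k + 1) p)) u) Filter.atTop
      (nhds L) ∧
    ∀ ε : ℝ, 0 < ε → ∃ a : ℝ, 0 < a ∧ ∃ n0 : ℕ, ∀ n ≥ n0, ∀ S : Form (Fin (k + 1)) p,
      ProjForm S → InK K S → mass q S = mass q (om (k + 1) p) →
      LM m q S (a * (d : ℝ) ^ n) →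
      |pair φ (Sn F d n S) u - L| < ε

end

end Pool.Agent.H92.EM
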