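import Pool.Agent.H92.EHD.All
import Pool.Agent.H92.EM.TC
import Pool.Agent.H1.EMD.MTZ
import Pool.Agent.H10.EM.MPE
import Pool.Agent.H10.EM.MRC
import Pool.Agent.H11.EM.MKZ
import Pool.Agent.H11.EM.MPZ
import Pool.Agent.H13.EMD.MRS
import Pool.Agent.H17.EM.MKI
import Pool.Agent.H19.EM.MK2
import Pool.Agent.H19.EM.MZK
import Pool.Agent.H20.EM.MPN
import Pool.Agent.H21.EM.MAW
import Pool.Agent.H26.EM.MSC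
import Pool.Agent.H26.EM.MSE
import Pool.Agent.H29.EM.MRZ
import Pool.Agent.H29.EM.MSA
import Pool.Agent.H36.EM.MKS
import Pool.Agent.H36.EM.MRF
import Pool.Agent.H38.EM.MMB
import Pool.Agent.H38.EM.MSZ
import Pool.Agent.H39.EM.MLD
import Pool.Agent.H39.EM.MTG
import Pool.Agent.H4.EM.MLE
import Pool.Agent.H41.EM.MKL
import Pool.Agent.H42.EM.MRV
import Pool.Agent.H51.EM.MPR
import Pool.Agent.H56.EM.MRH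
import Pool.Agent.H61.EM.MWH
import Pool.Agent.H64.EM.MBU
import Pool.Agent.H64.EM.MPM
import Pool.Agent.H68.EM.MPL
import Pool.Agent.H70.EM.MK1
import Pool.Agent.H72.EM.MRG
import Pool.Agent.H72.EM.MRK
import Pool.Agent.H72.EM.MSB
import Pool.Agent.H73.EM.MPA
import Pool.Agent.H8.EM.MKN
import Pool.Agent.H85.EM.MKJ
import Pool.Agent.H85.EM.MPC
import Pool.Agent.H86.EMD.MKP
import Pool.Agent.H86.EMD.MMA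
import Pool.Agent.H86.EMD.MPF
import Pool.Agent.H88.EM.MKB
import Pool.Agent.H88.EM.MPG
import Pool.Agent.H91.EM.MKF
import Pool.Agent.H91.EM.MKO
import Pool.Agent.H92.EM.MRT
import Pool.Agent.H95.EM.MFI
import Pool.Agent.H95.EM.MSD

/-!
Assembly of the board emd_modules (MP_75a732_an).
-/

namespace Pool.Agent.H92.EM.All

theorem a_MAW : Pool.Agent.H92.EM.T_MAW :=
  Pool.Agent.H21.EM.pf_MAW Pool.Agent.H92.EQ.All.a_D11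

theorem a_MBU : Pool.Agent.H92.EM.T_MBU :=
  Pool.Agent.H64.EM.pf_MBU

theorem a_MZK : Pool.Agent.H92.EM.T_MZK :=
  Pool.Agent.H19.EM.pf_MZK Pool.Agent.H92.EQ.All.a_KA

theorem a_MWH : Pool.Agent.H92.EM.T_MWH :=
  Pool.Agent.H61.EM.pf_MWH Pool.Agent.H92.EQ.All.a_L3 Pool.Agent.H92.EQ.All.a_L5
    Pool.Agent.H92.EQ.All.a_D12 Pool.Agent.H92.EQ.All.a_KA

theorem a_MMA : Pool.Agent.H92.EM.T_MMA :=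
  Pool.Agent.H86.EMD.pf_MMA a_MWH Pool.Agent.H92.EHD.All.a_EPB Pool.Agent.H92.EQ.All.a_KA
    Pool.Agent.H92.EQ.All.a_KE Pool.Agent.H92.EQ.All.a_KG2 Pool.Agent.H92.EQ.All.a_D12
    Pool.Agent.H92.EQ.All.a_P1 Pool.Agent.H92.EQ.All.a_P3 Pool.Agent.H92.EQ.All.a_P5
    Pool.Agent.H92.EQ.All.a_L1 Pool.Agent.H92.EQ.All.a_L3

theorem a_MLD : Pool.Agent.H92.EM.T_MLD :=
  Pool.Agent.H39.EM.pf_MLD

theorem a_MLE : Pool.Agent.H92.EM.T_MLE :=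
  Pool.Agent.H4.EM.pf_MLE a_MLD Pool.Agent.H92.EQ.All.a_A1 Pool.Agent.H92.EQ.All.a_LA
    Pool.Agent.H92.EQ.All.a_LB Pool.Agent.H92.EQ.All.a_LC Pool.Agent.H92.EQ.All.a_TB
    Pool.Agent.H92.EQ.All.a_TN Pool.Agent.H92.EQ.All.a_L2 Pool.Agent.H92.EQ.All.a_L6
    Pool.Agent.H92.EQ.All.a_A13b Pool.Agent.H92.EQ.All.a_P3 Pool.Agent.H92.EQ.All.a_P4
    Pool.Agent.H92.EQ.All.a_P5 Pool.Agent.H92.EQ.All.a_S5 Pool.Agent.H92.EQ.All.a_W6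
    Pool.Agent.H92.EQ.All.a_W9 Pool.Agent.H92.EQ.All.a_D8 Pool.Agent.H92.EQ.All.a_D11
    Pool.Agent.H92.EQ.All.a_D13

theorem a_MTG : Pool.Agent.H92.EM.T_MTG :=
  Pool.Agent.H39.EM.pf_MTG Pool.Agent.H92.EQ.All.a_TG Pool.Agent.H92.EQ.All.a_TH

theorem a_MTZ : Pool.Agent.H92.EM.T_MTZ :=
  Pool.Agent.H1.EMD.pf_MTZ a_MBU a_MTG Pool.Agent.H92.EHD.All.a_ETI Pool.Agent.H92.EQ.All.a_TJ
    Pool.Agent.H92.EQ.All.a_TK Pool.Agent.H92.EQ.All.a_TM Pool.Agent.H92.EQ.All.a_TN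
    Pool.Agent.H92.EQ.All.a_L1 Pool.Agent.H92.EQ.All.a_L6

theorem a_MSA : Pool.Agent.H92.EM.T_MSA :=
  Pool.Agent.H29.EM.pf_MSA Pool.Agent.H92.EQ.All.a_W7 Pool.Agent.H92.EQ.All.a_W9

theorem a_MSB : Pool.Agent.H92.EM.T_MSB :=
  Pool.Agent.H72.EM.pf_MSB a_MBU

theorem a_MSC : Pool.Agent.H92.EM.T_MSC :=
  Pool.Agent.H26.EM.pf_MSC Pool.Agent.H92.EQ.All.a_D13

theorem a_MSD : Pool.Agent.H92.EM.T_MSD :=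
  Pool.Agent.H95.EM.pf_MSD Pool.Agent.H92.EHD.All.a_RTR Pool.Agent.H92.EQ.All.a_S4
    Pool.Agent.H92.EQ.All.a_S5 Pool.Agent.H92.EQ.All.a_P1 Pool.Agent.H92.EQ.All.a_P3
    Pool.Agent.H92.EQ.All.a_P6 Pool.Agent.H92.EQ.All.a_D4 Pool.Agent.H92.EQ.All.a_D6
    Pool.Agent.H92.EQ.All.a_D13 Pool.Agent.H92.EQ.All.a_L3 Pool.Agent.H92.EQ.All.a_L5
    Pool.Agent.H92.EQ.All.a_W4 Pool.Agent.H92.EQ.All.a_W9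

theorem a_MSE : Pool.Agent.H92.EM.T_MSE :=
  Pool.Agent.H26.EM.pf_MSE Pool.Agent.H92.EHD.All.a_RTR Pool.Agent.H92.EQ.All.a_S4
    Pool.Agent.H92.EQ.All.a_S5 Pool.Agent.H92.EQ.All.a_P1 Pool.Agent.H92.EQ.All.a_P3
    Pool.Agent.H92.EQ.All.a_L3

theorem a_MSZ : Pool.Agent.H92.EM.T_MSZ :=
  Pool.Agent.H38.EM.pf_MSZ a_MBU a_MSA a_MSB a_MSC a_MSD a_MSE Pool.Agent.H92.EHD.All.a_RDA
    Pool.Agent.H92.EQ.All.a_D13 Pool.Agent.H92.EQ.All.a_D5 Pool.Agent.H92.EQ.All.a_D6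
    Pool.Agent.H92.EQ.All.a_D7 Pool.Agent.H92.EQ.All.a_L5

theorem a_MRH : Pool.Agent.H92.EM.T_MRH :=
  Pool.Agent.H56.EM.pf_MRH Pool.Agent.H92.EQ.All.a_W4 Pool.Agent.H92.EQ.All.a_W9

theorem a_MRF : Pool.Agent.H92.EM.T_MRF :=
  Pool.Agent.H36.EM.pf_MRF

theorem a_MRC : Pool.Agent.H92.EM.T_MRC :=
  Pool.Agent.H10.EM.pf_MRC a_MRH a_MRF Pool.Agent.H92.EQ.All.a_A1 Pool.Agent.H92.EQ.All.a_A2
    Pool.Agent.H92.EQ.All.a_A3 Pool.Agent.H92.EQ.All.a_A4 Pool.Agent.H92.EQ.All.a_A7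
    Pool.Agent.H92.EQ.All.a_A11 Pool.Agent.H92.EQ.All.a_A15 Pool.Agent.H92.EQ.All.a_D2
    Pool.Agent.H92.EQ.All.a_D4 Pool.Agent.H92.EQ.All.a_D5 Pool.Agent.H92.EQ.All.a_D7
    Pool.Agent.H92.EQ.All.a_D9 Pool.Agent.H92.EQ.All.a_D11 Pool.Agent.H92.EQ.All.a_D13
    Pool.Agent.H92.EQ.All.a_P1 Pool.Agent.H92.EQ.All.a_P3 Pool.Agent.H92.EQ.All.a_P5
    Pool.Agent.H92.EQ.All.a_L1 Pool.Agent.H92.EQ.All.a_L3 Pool.Agent.H92.EQ.All.a_L5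
    Pool.Agent.H92.EQ.All.a_W4 Pool.Agent.H92.EQ.All.a_W9

theorem a_MRT : Pool.Agent.H92.EM.T_MRT :=
  Pool.Agent.H92.EM.MRT.pf_MRT a_MSZ a_MRC a_MBU Pool.Agent.H92.EQ.All.a_KB
    Pool.Agent.H92.EQ.All.a_A4 Pool.Agent.H92.EQ.All.a_D2 Pool.Agent.H92.EQ.All.a_D6
    Pool.Agent.H92.EQ.All.a_D7 Pool.Agent.H92.EQ.All.a_D11 Pool.Agent.H92.EQ.All.a_D13
    Pool.Agent.H92.EQ.All.a_TB Pool.Agent.H92.EQ.All.a_TC Pool.Agent.H92.EQ.All.a_L1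
    Pool.Agent.H92.EQ.All.a_L5 Pool.Agent.H92.EQ.All.a_W6 Pool.Agent.H92.EQ.All.a_W9

theorem a_MRG : Pool.Agent.H92.EM.T_MRG :=
  Pool.Agent.H72.EM.pf_MRG Pool.Agent.H92.EQ.All.a_TG

theorem a_MRK : Pool.Agent.H92.EM.T_MRK :=
  Pool.Agent.H72.EM.pf_MRK a_MBU

theorem a_MRV : Pool.Agent.H92.EM.T_MRV :=
  Pool.Agent.H42.EM.pf_MRV a_MRT a_MRG a_MRK a_MBU Pool.Agent.H92.EHD.All.a_ETI
    Pool.Agent.H92.EQ.All.a_TN Pool.Agent.H92.EQ.All.a_D5 Pool.Agent.H92.EQ.All.a_D8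
    Pool.Agent.H92.EQ.All.a_D13 Pool.Agent.H92.EQ.All.a_P5 Pool.Agent.H92.EQ.All.a_L1
    Pool.Agent.H92.EQ.All.a_L3 Pool.Agent.H92.EQ.All.a_L6 Pool.Agent.H92.EQ.All.a_W6
    Pool.Agent.H92.EQ.All.a_A1 Pool.Agent.H92.EQ.All.a_TB Pool.Agent.H92.EQ.All.a_TC

theorem a_MRS : Pool.Agent.H92.EM.T_MRS :=
  Pool.Agent.H13.EMD.pf_MRS a_MBU Pool.Agent.H92.EQ.All.a_TN Pool.Agent.H92.EQ.All.a_IA
    Pool.Agent.H92.EQ.All.a_TH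

theorem a_MRZ : Pool.Agent.H92.EM.T_MRZ :=
  Pool.Agent.H29.EM.pf_MRZ a_MRV a_MRS Pool.Agent.H92.EQ.All.a_TZ Pool.Agent.H92.EQ.All.a_IZ a_MBU
    Pool.Agent.H92.EQ.All.a_TN Pool.Agent.H92.EQ.All.a_D5 Pool.Agent.H92.EQ.All.a_D7
    Pool.Agent.H92.EQ.All.a_D8 Pool.Agent.H92.EQ.All.a_D13 Pool.Agent.H92.EQ.All.a_P5
    Pool.Agent.H92.EQ.All.a_L1 Pool.Agent.H92.EQ.All.a_W0

theorem a_MKB : Pool.Agent.H92.EM.T_MKB :=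
  Pool.Agent.H88.EM.MKBrow.pf_MKB Pool.Agent.H92.EQ.All.a_KB Pool.Agent.H92.EQ.All.a_L5
    Pool.Agent.H92.EQ.All.a_L6 Pool.Agent.H92.EQ.All.a_D12

theorem a_MKI : Pool.Agent.H92.EM.T_MKI :=
  Pool.Agent.H17.EM.pf_MKI Pool.Agent.H92.EQ.All.a_KG2 Pool.Agent.H92.EQ.All.a_G4
    Pool.Agent.H92.EQ.All.a_KA Pool.Agent.H92.EQ.All.a_KH Pool.Agent.H92.EQ.All.a_D12
    Pool.Agent.H92.EQ.All.a_P1 Pool.Agent.H92.EQ.All.a_P3 Pool.Agent.H92.EQ.All.a_P5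
    Pool.Agent.H92.EQ.All.a_D7 Pool.Agent.H92.EQ.All.a_L3 Pool.Agent.H92.EQ.All.a_L6

theorem a_MK1 : Pool.Agent.H92.EM.T_MK1 :=
  Pool.Agent.H70.EM.pf_MK1 Pool.Agent.H92.EQ.All.a_KA a_MKB Pool.Agent.H92.EQ.All.a_KE a_MKI
    Pool.Agent.H92.EQ.All.a_P1 Pool.Agent.H92.EQ.All.a_P3 Pool.Agent.H92.EQ.All.a_P5
    Pool.Agent.H92.EQ.All.a_L1 Pool.Agent.H92.EQ.All.a_L3 Pool.Agent.H92.EQ.All.a_D12

theorem a_MKF : Pool.Agent.H92.EM.T_MKF :=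
  Pool.Agent.H91.EM.pf_MKF Pool.Agent.H92.EQ.All.a_KA Pool.Agent.H92.EQ.All.a_P1
    Pool.Agent.H92.EQ.All.a_P3 Pool.Agent.H92.EQ.All.a_P5 Pool.Agent.H92.EQ.All.a_P7
    Pool.Agent.H92.EQ.All.a_D12 Pool.Agent.H92.EQ.All.a_L3 Pool.Agent.H92.EQ.All.a_D7

theorem a_MMB : Pool.Agent.H92.EM.T_MMB :=
  Pool.Agent.H38.EM.pf_MMB a_MWH a_MKI a_MKB a_MMA Pool.Agent.H92.EQ.All.a_KA
    Pool.Agent.H92.EQ.All.a_KE Pool.Agent.H92.EQ.All.a_KD Pool.Agent.H92.EQ.All.a_KH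
    Pool.Agent.H92.EQ.All.a_KG2 Pool.Agent.H92.EQ.All.a_P1 Pool.Agent.H92.EQ.All.a_P3
    Pool.Agent.H92.EQ.All.a_P6 Pool.Agent.H92.EQ.All.a_P7 Pool.Agent.H92.EQ.All.a_D6
    Pool.Agent.H92.EQ.All.a_D7 Pool.Agent.H92.EQ.All.a_L1 Pool.Agent.H92.EQ.All.a_L3

theorem a_MK2 : Pool.Agent.H92.EM.T_MK2 :=
  Pool.Agent.H19.EM.pf_MK2 Pool.Agent.H92.EQ.All.a_KA a_MKB Pool.Agent.H92.EQ.All.a_KE2 a_MKF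
    a_MMB Pool.Agent.H92.EQ.All.a_KG2 Pool.Agent.H92.EQ.All.a_KH a_MKI Pool.Agent.H92.EQ.All.a_P1
    Pool.Agent.H92.EQ.All.a_P3 Pool.Agent.H92.EQ.All.a_P5 Pool.Agent.H92.EQ.All.a_L1
    Pool.Agent.H92.EQ.All.a_L3 Pool.Agent.H92.EQ.All.a_D7 Pool.Agent.H92.EQ.All.a_D12

theorem a_MKS : Pool.Agent.H92.EM.T_MKS :=
  Pool.Agent.H36.EM.pf_MKS a_MK1 a_MK2 Pool.Agent.H92.EQ.All.a_D7

theorem a_MKJ : Pool.Agent.H92.EM.T_MKJ :=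
  Pool.Agent.H85.EM.pf_MKJ Pool.Agent.H92.EQ.All.a_L6 Pool.Agent.H92.EQ.All.a_L1
    Pool.Agent.H92.EQ.All.a_L2 Pool.Agent.H92.EQ.All.a_W6 Pool.Agent.H92.EQ.All.a_W2
    Pool.Agent.H92.EQ.All.a_W1 Pool.Agent.H92.EQ.All.a_W3 Pool.Agent.H92.EQ.All.a_W7
    Pool.Agent.H92.EQ.All.a_D12

theorem a_MKL : Pool.Agent.H92.EM.T_MKL :=
  Pool.Agent.H41.EM.pf_MKL a_MKB Pool.Agent.H92.EQ.All.a_D12

theorem a_MKN : Pool.Agent.H92.EM.T_MKN :=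
  Pool.Agent.H8.EM.pf_MKN a_MKS a_MKJ a_MKL Pool.Agent.H92.EQ.All.a_KM Pool.Agent.H92.EQ.All.a_P4
    Pool.Agent.H92.EQ.All.a_D12 Pool.Agent.H92.EQ.All.a_L6 Pool.Agent.H92.EQ.All.a_P5
    Pool.Agent.H92.EQ.All.a_D7 Pool.Agent.H92.EQ.All.a_P1 Pool.Agent.H92.EQ.All.a_P3
    Pool.Agent.H92.EQ.All.a_L1 Pool.Agent.H92.EQ.All.a_L2 Pool.Agent.H92.EQ.All.a_L3
    Pool.Agent.H92.EQ.All.a_W6 Pool.Agent.H92.EQ.All.a_W1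

theorem a_MKP : Pool.Agent.H92.EM.T_MKP :=
  Pool.Agent.H86.EMD.pf_MKP a_MKJ Pool.Agent.H92.EQ.All.a_D12 Pool.Agent.H92.EQ.All.a_L6
    Pool.Agent.H92.EQ.All.a_P5 Pool.Agent.H92.EQ.All.a_D7 Pool.Agent.H92.EQ.All.a_L1
    Pool.Agent.H92.EQ.All.a_L2 Pool.Agent.H92.EQ.All.a_W6

theorem a_MKO : Pool.Agent.H92.EM.T_MKO :=
  Pool.Agent.H91.EM.pf_MKO a_MMA a_MBU Pool.Agent.H92.EQ.All.a_KP2 Pool.Agent.H92.EQ.All.a_L3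
    Pool.Agent.H92.EQ.All.a_L6 Pool.Agent.H92.EQ.All.a_P1 Pool.Agent.H92.EQ.All.a_L1
    Pool.Agent.H92.EQ.All.a_P3 Pool.Agent.H92.EQ.All.a_P5 Pool.Agent.H92.EQ.All.a_D7
    Pool.Agent.H92.EQ.All.a_D12

theorem a_MKZ : Pool.Agent.H92.EM.T_MKZ :=
  Pool.Agent.H11.EM.pf_MKZ a_MLE a_MTZ a_MRZ a_MKN a_MKP a_MKO

theorem a_MPM : Pool.Agent.H92.EM.T_MPM :=
  Pool.Agent.H64.EM.pf_MPM Pool.Agent.H92.EQ.All.a_PNM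

theorem a_MPN : Pool.Agent.H92.EM.T_MPN :=
  Pool.Agent.H20.EM.pf_MPN a_MKB a_MPM

theorem a_MPA : Pool.Agent.H92.EM.T_MPA :=
  Pool.Agent.H73.EM.pf_MPA a_MSZ a_MBU Pool.Agent.H92.EHD.All.a_EA1 Pool.Agent.H92.EQ.All.a_P1
    Pool.Agent.H92.EQ.All.a_P3 Pool.Agent.H92.EQ.All.a_P5 Pool.Agent.H92.EQ.All.a_A4
    Pool.Agent.H92.EQ.All.a_S5 Pool.Agent.H92.EQ.All.a_D5 Pool.Agent.H92.EQ.All.a_D6
    Pool.Agent.H92.EQ.All.a_D7 Pool.Agent.H92.EQ.All.a_D8 Pool.Agent.H92.EQ.All.a_D11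
    Pool.Agent.H92.EQ.All.a_L3 Pool.Agent.H92.EQ.All.a_L5 Pool.Agent.H92.EQ.All.a_L6
    Pool.Agent.H92.EQ.All.a_KB Pool.Agent.H92.EQ.All.a_PLL

theorem a_MPG : Pool.Agent.H92.EM.T_MPG :=
  Pool.Agent.H88.EM.pf_MPG Pool.Agent.H92.EHD.All.a_EPG Pool.Agent.H92.EQ.All.a_W4
    Pool.Agent.H92.EQ.All.a_W9

theorem a_MPL : Pool.Agent.H92.EM.T_MPL :=
  Pool.Agent.H68.EM.pf_MPL a_MPG a_MWH Pool.Agent.H92.EQ.All.a_PLI Pool.Agent.H92.EQ.All.a_KA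
    Pool.Agent.H92.EQ.All.a_KH Pool.Agent.H92.EQ.All.a_P6 Pool.Agent.H92.EQ.All.a_P7
    Pool.Agent.H92.EQ.All.a_D7 Pool.Agent.H92.EQ.All.a_L3 Pool.Agent.H92.EQ.All.a_L5

theorem a_MPR : Pool.Agent.H92.EM.T_MPR :=
  Pool.Agent.H51.EM.pf_MPR a_MKL a_MKB Pool.Agent.H92.EQ.All.a_D11

theorem a_MPF : Pool.Agent.H92.EM.T_MPF :=
  Pool.Agent.H86.EMD.pf_MPF a_MPA a_MPL a_MPR a_MKJ a_MKB a_MBU Pool.Agent.H92.EQ.All.a_PBD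
    Pool.Agent.H92.EQ.All.a_PVI Pool.Agent.H92.EQ.All.a_TN Pool.Agent.H92.EQ.All.a_D6
    Pool.Agent.H92.EQ.All.a_D7 Pool.Agent.H92.EQ.All.a_D12 Pool.Agent.H92.EQ.All.a_L3
    Pool.Agent.H92.EQ.All.a_L5 Pool.Agent.H92.EQ.All.a_L6 Pool.Agent.H92.EQ.All.a_P1
    Pool.Agent.H92.EQ.All.a_P3 Pool.Agent.H92.EQ.All.a_P5 Pool.Agent.H92.EQ.All.a_P6
    Pool.Agent.H92.EQ.All.a_PDE

theorem a_MPC : Pool.Agent.H92.EM.T_MPC :=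
  Pool.Agent.H85.EM.pf_MPC a_MPM Pool.Agent.H92.EHD.All.a_EPD Pool.Agent.H92.EQ.All.a_PMK
    Pool.Agent.H92.EQ.All.a_PDE Pool.Agent.H92.EQ.All.a_PVI Pool.Agent.H92.EQ.All.a_PLC
    Pool.Agent.H92.EQ.All.a_PSA Pool.Agent.H92.EQ.All.a_D12 Pool.Agent.H92.EQ.All.a_P1
    Pool.Agent.H92.EQ.All.a_P3 Pool.Agent.H92.EQ.All.a_P5 Pool.Agent.H92.EQ.All.a_L1
    Pool.Agent.H92.EQ.All.a_L6 Pool.Agent.H92.EQ.All.a_KG2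

theorem a_MPE : Pool.Agent.H92.EM.T_MPE :=
  Pool.Agent.H10.EM.pf_MPE Pool.Agent.H92.EQ.All.a_PSA Pool.Agent.H92.EQ.All.a_PMK
    Pool.Agent.H92.EQ.All.a_PDE Pool.Agent.H92.EQ.All.a_PVI Pool.Agent.H92.EQ.All.a_D12
    Pool.Agent.H92.EQ.All.a_KG2 Pool.Agent.H92.EQ.All.a_P1 Pool.Agent.H92.EQ.All.a_L1

theorem a_MPZ : Pool.Agent.H92.EM.T_MPZ :=
  Pool.Agent.H11.EM.pf_MPZ a_MPN a_MPF a_MPC a_MPE a_MPR Pool.Agent.H92.EQ.All.a_PVI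
    Pool.Agent.H92.EQ.All.a_PMK Pool.Agent.H92.EQ.All.a_P1 Pool.Agent.H92.EQ.All.a_P3
    Pool.Agent.H92.EQ.All.a_D12

theorem a_MFI : Pool.Agent.H92.EM.T_MFI :=
  Pool.Agent.H95.EM.pf_MFI a_MZK a_MAW a_MMA a_MKZ a_MPZ a_MLE a_MTZ Pool.Agent.H92.EQ.All.a_KP2
    Pool.Agent.H92.EQ.All.a_KG2 Pool.Agent.H92.EQ.All.a_P5 Pool.Agent.H92.EQ.All.a_D12

end Pool.Agent.H92.EM.All
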