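import Pool.Agent.H92.EHD.TR2
import Pool.Agent.H92.EHD.TP

/-!
Board emd_modules (MP_75a732_an): equidistribution when the supports meet several totally
invariant hyperplanes `H_i = {z_i = 0}`, `i < m` (`F i = X i ^ d`).  Definitions.
-/

namespace Pool.Agent.H92.EM

open scoped BigOperators ComplexConjugate ContDiff ComplexOrder
open MeasureTheory Pool.Agent.H92.EQ

noncomputable section

variable {k : ℕ}

/-- The entries `(i,j)`, `i < m`, `j ≠ i`, are erased. -/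
def msk (m : ℕ) (A : Matrix (Fin (k + 1)) (Fin (k + 1)) ℂ) :
    Matrix (Fin (k + 1)) (Fin (k + 1)) ℂ :=
  fun i j => if (i : ℕ) < m ∧ j ≠ i then 0 else A i j

/-- Endomorphisms with `Φ i = X i ^ D` for `i < m`. -/
structure IsM (m D : ℕ) (Φ : Fin (k + 1) → MvPolynomial (Fin (k + 1)) ℂ) : Prop where
  isH : IsH D Φ
  diag : ∀ i : Fin (k + 1), (i : ℕ) < m → Φ i = MvPolynomial.X i ^ D

/-- The rows `i < m` are replaced by `e_i`. -/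
def lowM (m : ℕ) (P : Matrix (Fin (k + 1)) (Fin (k + 1)) ℂ) :
    Matrix (Fin (k + 1)) (Fin (k + 1)) ℂ :=
  fun i j => if (i : ℕ) < m then (1 : Matrix (Fin (k + 1)) (Fin (k + 1)) ℂ) i j else P i j

/-- The determinant of the lower block of the Jacobian (degree `(k + 1 - m) (d - 1)`). -/
def lowP (m : ℕ) (F : Fin (k + 1) → MvPolynomial (Fin (k + 1)) ℂ) :
    MvPolynomial (Fin (k + 1)) ℂ :=
  (Matrix.of fun i a : Fin (k + 1) => if (i : ℕ) < m then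
    (1 : Matrix (Fin (k + 1)) (Fin (k + 1)) (MvPolynomial (Fin (k + 1)) ℂ)) i a
    else MvPolynomial.pderiv a (F i)).det

/-- The relative lower Jacobian of `Φ`. -/
def relL (m : ℕ) (Φ : Fin (k + 1) → MvPolynomial (Fin (k + 1)) ℂ) (z : Fin (k + 1) → ℂ) : ℝ :=
  ‖(lowM m (jac Φ z)).det‖ * nrm z ^ (k + 1 - m) / nrm (ev Φ z) ^ (k + 1 - m)

/-- The potential `(1/2) log (|z_b|² + δ² |z|²)`. -/
def wH (b : Fin (k + 1)) (δ : ℝ) (z : Fin (k + 1) → ℂ) : ℝ :=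
  (1 / 2) * Real.log (‖z b‖ ^ 2 + δ ^ 2 * nsq z)

/-- The logarithmic masses near the hyperplanes are at most `A`. -/
def LM (m : ℕ) {p : ℕ} (q : ℕ) (S : Form (Fin (k + 1)) p) (A : ℝ) : Prop :=
  ∀ b : Fin (k + 1), (b : ℕ) < m → ∀ δ : ℝ, 0 < δ → δ ≤ 1 →
    pair (fun z => ell z - wH b δ z) S (fun _ : Fin q => ell) ≤ A * mass q (om (k + 1) p)

/-- The set where at most one of the coordinates `z_i`, `i < m`, is small. -/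
def Zk (m : ℕ) (κ : ℝ) : Set (Fin (k + 1) → ℂ) :=
  {z | ∀ i j : Fin (k + 1), (i : ℕ) < m → (j : ℕ) < m → i ≠ j →
    Real.exp (-κ) * nrm z ≤ max ‖z i‖ ‖z j‖}

/-- The near critical set for the lower Jacobian. -/
def CrL (m : ℕ) (F : Fin (k + 1) → MvPolynomial (Fin (k + 1)) ℂ) (d : ℕ) (r : ℝ) :
    Set (Fin (k + 1) → ℂ) :=
  {y | nv (lowP m F) ((k + 1 - m) * (d - 1)) y < r}

/-- Near critical visits at level `i` for points of `K`. -/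
def HitL (m : ℕ) (F : Fin (k + 1) → MvPolynomial (Fin (k + 1)) ℂ) (d : ℕ)
    (K : Set (Fin (k + 1) → ℂ)) (i : ℕ) (r h : ℝ) : Prop :=
  ∀ σ : Form (Fin (k + 1)) k, ProjForm σ → InK K σ → mass 0 σ = mass 0 (om (k + 1) k) →
    pair (Set.indicator (CrL m F d r) (fun _ => 1)) (Sn F d i σ) (fun _ : Fin 0 => ell) ≤
      h * mass 0 (om (k + 1) k)

/-- The bad part of level `i`. -/
def betaL (m : ℕ) {p : ℕ} (F : Fin (k + 1) → MvPolynomial (Fin (k + 1)) ℂ) (d n i q : ℕ)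
    (r : ℝ) (S : Form (Fin (k + 1)) p) : ℝ :=
  pair (fun z => Set.indicator (CrL m F d r) (fun _ => (1 : ℝ)) (ev (iter F (n - i)) z))
    (Sn F d n S) (fun _ : Fin q => ell)

/-- The class of currents. -/
structure Cls (m : ℕ) {p : ℕ} (K : Set (Fin (k + 1) → ℂ)) (q : ℕ) (A : ℝ)
    (S : Form (Fin (k + 1)) p) : Prop where
  pf : ProjForm S
  ink : InK K S
  ms : mass q S = mass q (om (k + 1) p)
  lm : LM m q S A

/-- The theorem in codimension `p` for the family `𝒦`: `a` does not depend on `K`. -/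
def ConvE (m : ℕ) (F : Fin (k + 1) → MvPolynomial (Fin (k + 1)) ℂ) (d p : ℕ)
    (𝒦 : Set (Set (Fin (k + 1) → ℂ))) : Prop :=
  ∀ q, p + q = k → ∀ (φ : (Fin (k + 1) → ℂ) → ℝ) (u : Fin q → (Fin (k + 1) → ℂ) → ℝ),
    Hom0 φ → (∀ j, Pot (u j)) → ∀ ε : ℝ, 0 < ε → ∃ a : ℝ, 0 < a ∧ ∀ K ∈ 𝒦, ∃ n0 : ℕ,
    ∀ n ≥ n0, ∀ S : Form (Fin (k + 1)) p, Cls m K q (a * (d : ℝ) ^ n) S →
      |pair φ (Sn F d n S) u - pair φ (Sn F d n (om (k + 1) p)) u| < ε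

/-- `a`-values are almost constant near the identity of the group of the hyperplanes. -/
def CstE (m : ℕ) (F : Fin (k + 1) → MvPolynomial (Fin (k + 1)) ℂ) (d p : ℕ)
    (𝒦 : Set (Set (Fin (k + 1) → ℂ))) : Prop :=
  ∀ q, p + q = k → ∀ (φ : (Fin (k + 1) → ℂ) → ℝ) (u : Fin q → (Fin (k + 1) → ℂ) → ℝ),
    Hom0 φ → (∀ z, z ≠ 0 → 0 ≤ φ z) → (∀ j, Pot (u j)) → ∀ η δ : ℝ, 0 < η → 0 < δ →
    ∃ a : ℝ, 0 < a ∧ ∀ K ∈ 𝒦, ∃ i1 n0 : ℕ, i1 ≤ n0 ∧ ∀ n ≥ n0,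
    ∀ S : Form (Fin (k + 1)) p, Cls m K q (a * (d : ℝ) ^ n) S →
    ∀ A : Matrix (Fin (k + 1)) (Fin (k + 1)) ℂ,
      (∀ i j : Fin (k + 1), (i : ℕ) < m → j ≠ i → A i j = 0) →
      (∀ i j, ‖A i j - (1 : Matrix (Fin (k + 1)) (Fin (k + 1)) ℂ) i j‖ ≤
        Real.exp (-(δ * (d : ℝ) ^ (n - i1)))) →
      |am φ (iter F (n - i1)) (Sn F d i1 S) u A -
        (d : ℝ) ^ (p * (n - i1)) * pair φ (Sn F d n S) u| ≤ η * (d : ℝ) ^ (p * (n - i1))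

/-- BLOCK P for the set `K`. -/
def PMainE (m : ℕ) (F : Fin (k + 1) → MvPolynomial (Fin (k + 1)) ℂ) (d : ℕ)
    (K : Set (Fin (k + 1) → ℂ)) : Prop :=
  ∀ η : ℝ, 0 < η → ∃ i1 n0 : ℕ, ∀ n ≥ n0, ∃ h : ℕ → ℝ, (∀ i, 0 ≤ h i) ∧
    ∑ i ∈ Finset.Icc i1 n, h i ≤ η ∧
    ∀ i ∈ Finset.Icc i1 n,
      HitL m F d K i (Real.exp (-((d : ℝ) ^ n / (n : ℝ) ^ 4))) (h i)

/-- `K` is a closed cone which meets no totally invariant algebraic set which contains none of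
the hyperplanes. -/
def AwayE (m : ℕ) (F : Fin (k + 1) → MvPolynomial (Fin (k + 1)) ℂ)
    (K : Set (Fin (k + 1) → ℂ)) : Prop :=
  IsClosed (K ∪ {0}) ∧ (∀ z ∈ K, ∀ l : ℂ, l ≠ 0 → l • z ∈ K) ∧
  ∀ A : Set (MvPolynomial (Fin (k + 1)) ℂ), (∀ h ∈ A, ∃ e, h.IsHomogeneous e) →
    (∃ h ∈ A, h ≠ 0) →
    (∀ b : Fin (k + 1), (b : ℕ) < m → ∃ z : Fin (k + 1) → ℂ, z ≠ 0 ∧ z b = 0 ∧
      ∃ h ∈ A, MvPolynomial.eval z h ≠ 0) →
    (∀ z : Fin (k + 1) → ℂ, z ≠ 0 → ((∀ h ∈ A, MvPolynomial.eval (ev F z) h = 0) ↔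
      ∀ h ∈ A, MvPolynomial.eval z h = 0)) →
    ∀ z ∈ K, z ≠ 0 → ¬ ∀ h ∈ A, MvPolynomial.eval z h = 0

/-! ### The laws -/

/-- The bump: smooth, radial, supported in the unit disc, of integral one. -/
def bu (t : ℂ) : ℝ := Real.pi⁻¹ * deriv Real.smoothTransition (‖t‖ ^ 2)

/-- The bump of radius `θ`. -/
def bs (θ : ℝ) (t : ℂ) : ℝ := (θ ^ 2)⁻¹ * bu (((θ⁻¹ : ℝ) : ℂ) * t)

/-- The radius. -/
def th0 (k : ℕ) : ℝ := 1 / (8 * (k + 1))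

/-- The law of the matrices. -/
def bth (θ : ℝ) (X : Fin (k + 1) → Fin (k + 1) → ℂ) : ℝ := ∏ i, ∏ j, bs θ (X i j)

/-- The matrix `msk m (1 + X)`. -/
def mX (m : ℕ) (X : Fin (k + 1) → Fin (k + 1) → ℂ) :
    Matrix (Fin (k + 1)) (Fin (k + 1)) ℂ := msk m (1 + Matrix.of X)

/-- The first `r` entries. -/
def sw (r : ℕ) (X : Fin (k + 1) → Fin (k + 1) → ℂ) : Fin (k + 1) → Fin (k + 1) → ℂ :=
  fun i j => if (i : ℕ) * (k + 1) + j < r then X i j else 0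

/-- The mean of the pull-backs. -/
def avS (m : ℕ) {p : ℕ} (S : Form (Fin (k + 1)) p) : Form (Fin (k + 1)) p := fun y I J =>
  ∫ X : Fin (k + 1) → Fin (k + 1) → ℂ,
    ((bth (th0 k) X : ℝ) : ℂ) * pull (lin (mX m X)) S y I J

/-- The trace over the multi-indices without `b`. -/
def trO {N s : ℕ} (b : Fin N) (T : (Fin s → Fin N) → (Fin s → Fin N) → ℂ) : ℝ :=
  ∑ I : Fin s → Fin N, if ∀ l, I l ≠ b then (T I I).re else 0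

/-- The closed forms of the model bound. -/
def TF (s : ℕ) (b : Fin (k + 1)) (δ : ℝ) : Form (Fin (k + 1)) (s + 1) := fun z =>
  wedge (om (k + 1) s z) (hessR (wH b δ) z)

/-- BLOCK L. -/
def LocLipE (m k p q : ℕ) : Prop :=
  ∀ u : Fin q → (Fin (k + 1) → ℂ) → ℝ, (∀ j, Pot (u j)) → ∃ c : ℝ, ∃ n : ℕ, 0 < c ∧
    ∀ (D : ℕ) (Φ : Fin (k + 1) → MvPolynomial (Fin (k + 1)) ℂ), 1 ≤ D → IsM m D Φ →
    ∀ (κ : (Fin (k + 1) → ℂ) → ℝ) (M ρ : ℝ), Hom0 κ → 1 ≤ M → 0 < ρ → ρ ≤ 1 →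
    (∀ x, nrm x = 1 → |κ x| ≤ M) →
    (∀ x, nrm x = 1 → ∀ a, ‖wd a (fun w => (κ w : ℂ)) x‖ ≤ M) →
    (∀ x, nrm x = 1 → ∀ i a, ‖jac Φ x i a‖ ≤ M * nrm (ev Φ x)) →
    (∀ x, nrm x = 1 → ∀ i a b,
      ‖MvPolynomial.eval x (MvPolynomial.pderiv b (MvPolynomial.pderiv a (Φ i)))‖ ≤
        M * nrm (ev Φ x)) →
    (∀ x, nrm x = 1 → κ x ≠ 0 →
      ρ * nrm (ev Φ x) ^ (k + 1 - m) ≤ ‖(lowM m (jac Φ x)).det‖) →
    ∀ S : Form (Fin (k + 1)) p, ProjForm S →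
    ∀ (A : Matrix (Fin (k + 1)) (Fin (k + 1)) ℂ) (τ : ℝ), 0 ≤ τ → τ ≤ 1 / (2 * (k + 1)) →
    (∀ i j : Fin (k + 1), (i : ℕ) < m → j ≠ i → A i j = 0) →
    (∀ i j, ‖A i j - (1 : Matrix (Fin (k + 1)) (Fin (k + 1)) ℂ) i j‖ ≤ τ) →
    |am κ Φ S u A - pair κ (pull Φ S) u| ≤ c * (M / ρ) ^ n * τ * mass q (pull Φ S)

/-- BLOCK T. -/
def TBmp (m k p q : ℕ) : Prop :=
  ∃ c : ℝ, 0 < c ∧ ∀ (D : ℕ) (Φ : Fin (k + 1) → MvPolynomial (Fin (k + 1)) ℂ), 1 ≤ D →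
    IsH D Φ → ∀ (w w' : (Fin (k + 1) → ℂ) → ℝ) (u : Fin q → (Fin (k + 1) → ℂ) → ℝ),
    Pot w → Pot w' → (∀ j, Pot (u j)) → ∀ S : Form (Fin (k + 1)) p, ProjForm S →
    ∀ θ : ℝ, 0 < θ → θ ≤ th0 k →
    Integrable (fun X : Fin (k + 1) → Fin (k + 1) → ℂ =>
      bth θ X * am (fun z => w z - w' z) Φ S u (mX m X)) ∧
    |(∫ X : Fin (k + 1) → Fin (k + 1) → ℂ,
        bth θ X * am (fun z => w z - w' z) Φ S u (mX m X)) -
      ∫ X : Fin (k + 1) → Fin (k + 1) → ℂ,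
        bth (th0 k) X * am (fun z => w z - w' z) Φ S u (mX m X)| ≤
      c * (1 + Real.log (1 / θ)) * ((D : ℝ) ^ p / D) * mass q S

/-- BLOCK R. -/
def MeanM (m k p q : ℕ) : Prop :=
  ∀ κ : ℝ, ∃ c : ℝ, 0 < c ∧ ∀ (D : ℕ) (Φ : Fin (k + 1) → MvPolynomial (Fin (k + 1)) ℂ),
    1 ≤ D → IsH D Φ → ∀ (w w' : (Fin (k + 1) → ℂ) → ℝ)
    (u : Fin q → (Fin (k + 1) → ℂ) → ℝ) (B : ℝ), Pot w → Pot w' → (∀ j, Pot (u j)) →
    0 ≤ B → (∀ z, z ≠ 0 → |w z - w' z| ≤ B) →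
    ∀ (S : Form (Fin (k + 1)) p) (A : ℝ), 0 ≤ A → ProjForm S → InK (Zk m κ) S →
    mass q S = mass q (om (k + 1) p) → LM m q S A →
    |(∫ X : Fin (k + 1) → Fin (k + 1) → ℂ,
        bth (th0 k) X * am (fun z => w z - w' z) Φ S u (mX m X)) -
      pair (fun z => w z - w' z) (pull Φ (om (k + 1) p)) u| ≤
      c * (1 + A + B + Real.log D) * ((D : ℝ) ^ p / D) * mass q (om (k + 1) p)

end

end Pool.Agent.H92.EM
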