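import Pool.Agent.H73.EM.MPA
import Pool.Agent.H10.EM.MRC
import Pool.Agent.H14.EQ.TI
import Pool.Agent.H47.EQ.TC2

/-!
# Board emd_modules, row MRT: the mean cost of `S`, first part
-/

set_option autoImplicit false

namespace Pool.Agent.H92.EM.MRT

open scoped BigOperators ComplexConjugate ContDiff ComplexOrder
open MeasureTheory Pool.Agent.H92.EQ Pool.Agent.H92.EM
open Pool.Agent.H14.EQ (GP ev_GP')
open Pool.Agent.H73.EM (bth_nonneg bth_cont bth_supp mX_near near_inj mX_cont av_int th0_pos)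
open Pool.Agent.H13.EHD (ev_cont ev_lin jac_lin)
open Pool.Agent.H10.EM.MRC (sl bk)

noncomputable section

variable {k : ℕ}

theorem pull_def {N M p : ℕ} (G : Fin N → MvPolynomial (Fin M) ℂ) (T : Form (Fin N) p)
    (z : Fin M → ℂ) (I J : Fin p → Fin M) :
    pull G T z I J = ∑ I' : Fin p → Fin N, ∑ J' : Fin p → Fin N,
      T (ev G z) I' J' * (∏ l, jac G z (I' l) (I l)) * ∏ l, conj (jac G z (J' l) (J l)) := rfl

theorem int_sum2 {α : Type} [MeasurableSpace α] {μ : Measure α} {ι κ : Type} [Fintype ι]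
    [Fintype κ] (f : ι → κ → α → ℂ) (hf : ∀ i j, Integrable (f i j) μ) (c : ι → κ → ℂ) :
    Integrable (fun a => ∑ i, ∑ j, c i j * f i j a) μ ∧
    ∫ a, ∑ i, ∑ j, c i j * f i j a ∂μ = ∑ i, ∑ j, c i j * ∫ a, f i j a ∂μ := by
  have h1 : ∀ i j, Integrable (fun a => c i j * f i j a) μ := fun i j => (hf i j).const_mul _
  refine ⟨integrable_finsetSum _ fun i _ => integrable_finsetSum _ fun j _ => h1 i j, ?_⟩
  rw [integral_finsetSum _ fun i _ => integrable_finsetSum _ fun j _ => h1 i j]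
  refine Finset.sum_congr rfl fun i _ => ?_
  rw [integral_finsetSum _ fun j _ => h1 i j]
  exact Finset.sum_congr rfl fun j _ => integral_const_mul _ _

/-- The pull-back of the mean is the mean of the pull-backs. -/
theorem av_pull (hB : T_MBU) {p M : ℕ} (m : ℕ) {S : Form (Fin (k + 1)) p} (hS : ProjForm S)
    (G : Fin (k + 1) → MvPolynomial (Fin M) ℂ) {z : Fin M → ℂ} (hz : ev G z ≠ 0)
    (I J : Fin p → Fin M) :
    Integrable (fun X : Fin (k + 1) → Fin (k + 1) → ℂ =>
      ((bth (th0 k) X : ℝ) : ℂ) * pull G (pull (lin (mX m X)) S) z I J) ∧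
    pull G (avS m S) z I J = ∫ X : Fin (k + 1) → Fin (k + 1) → ℂ,
      ((bth (th0 k) X : ℝ) : ℂ) * pull G (pull (lin (mX m X)) S) z I J := by
  have h := int_sum2 (μ := (volume : Measure (Fin (k + 1) → Fin (k + 1) → ℂ)))
    (fun (I' J' : Fin p → Fin (k + 1)) (X : Fin (k + 1) → Fin (k + 1) → ℂ) =>
      ((bth (th0 k) X : ℝ) : ℂ) * pull (lin (mX m X)) S (ev G z) I' J')
    (fun I' J' => av_int hB m hS hz I' J')
    (fun I' J' => (∏ l, jac G z (I' l) (I l)) * ∏ l, conj (jac G z (J' l) (J l)))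
  have e : (fun X : Fin (k + 1) → Fin (k + 1) → ℂ =>
      ((bth (th0 k) X : ℝ) : ℂ) * pull G (pull (lin (mX m X)) S) z I J) =
      fun X => ∑ I' : Fin p → Fin (k + 1), ∑ J' : Fin p → Fin (k + 1),
        ((∏ l, jac G z (I' l) (I l)) * ∏ l, conj (jac G z (J' l) (J l))) *
          (((bth (th0 k) X : ℝ) : ℂ) * pull (lin (mX m X)) S (ev G z) I' J') := by
    funext X
    rw [pull_def G, Finset.mul_sum]
    refine Finset.sum_congr rfl fun I' _ => ?_
    rw [Finset.mul_sum]
    refine Finset.sum_congr rfl fun J' _ => ?_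
    ring
  rw [e]
  refine ⟨h.1, ?_⟩
  rw [h.2, pull_def G]
  refine Finset.sum_congr rfl fun I' _ => Finset.sum_congr rfl fun J' _ => ?_
  unfold avS
  ring

theorem av_mix (hB : T_MBU) {p M r : ℕ} (m : ℕ) {S : Form (Fin (k + 1)) p} (hS : ProjForm S)
    (G : Fin (k + 1) → MvPolynomial (Fin M) ℂ) {z : Fin M → ℂ} (hz : ev G z ≠ 0)
    (H : Fin r → Matrix (Fin M) (Fin M) ℂ) :
    Integrable (fun X : Fin (k + 1) → Fin (k + 1) → ℂ =>
      ((bth (th0 k) X : ℝ) : ℂ) * mixD (pull G (pull (lin (mX m X)) S) z) H) ∧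
    mixD (pull G (avS m S) z) H = ∫ X : Fin (k + 1) → Fin (k + 1) → ℂ,
      ((bth (th0 k) X : ℝ) : ℂ) * mixD (pull G (pull (lin (mX m X)) S) z) H := by
  have h := int_sum2 (μ := (volume : Measure (Fin (k + 1) → Fin (k + 1) → ℂ)))
    (fun (e e' : (Fin p ⊕ Fin r) ≃ Fin M) (X : Fin (k + 1) → Fin (k + 1) → ℂ) =>
      ((bth (th0 k) X : ℝ) : ℂ) * pull G (pull (lin (mX m X)) S) z
        (fun i => e (Sum.inl i)) (fun i => e' (Sum.inl i)))
    (fun e e' => (av_pull hB m hS G hz _ _).1)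
    (fun e e' => ((Equiv.Perm.sign (e.trans e'.symm) : ℤ) : ℂ) *
      ∏ j, H j (e (Sum.inr j)) (e' (Sum.inr j)))
  have e1 : (fun X : Fin (k + 1) → Fin (k + 1) → ℂ =>
      ((bth (th0 k) X : ℝ) : ℂ) * mixD (pull G (pull (lin (mX m X)) S) z) H) =
      fun X => ∑ e : (Fin p ⊕ Fin r) ≃ Fin M, ∑ e' : (Fin p ⊕ Fin r) ≃ Fin M,
        (((Equiv.Perm.sign (e.trans e'.symm) : ℤ) : ℂ) *
          ∏ j, H j (e (Sum.inr j)) (e' (Sum.inr j))) *
        (((bth (th0 k) X : ℝ) : ℂ) * pull G (pull (lin (mX m X)) S) z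
          (fun i => e (Sum.inl i)) (fun i => e' (Sum.inl i))) := by
    funext X
    unfold mixD
    rw [Finset.mul_sum]
    refine Finset.sum_congr rfl fun e _ => ?_
    rw [Finset.mul_sum]
    refine Finset.sum_congr rfl fun e' _ => ?_
    ring
  rw [e1]
  refine ⟨h.1, ?_⟩
  rw [h.2]
  unfold mixD
  refine Finset.sum_congr rfl fun e _ => Finset.sum_congr rfl fun e' _ => ?_
  rw [(av_pull hB m hS G hz _ _).2]
  ring

/-! ### Measurability -/

theorem sl_meas (hW6 : T_W6) {N r : ℕ} {v : Fin r → (Fin N → ℂ) → ℝ} (hv : ∀ l, Pot (v l))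
    (j : Fin (r + 1)) (a b : Fin N) : Measurable fun x : Fin N → ℂ => sl v x j a b := by
  unfold sl
  refine Fin.lastCases ?_ (fun j => ?_) j
  · simp only [Fin.snoc_last]
    unfold Rad
    have h1 : Measurable fun x : Fin N → ℂ => nsq x :=
      Pool.Agent.H10.EM.MRC.cont_nsq.measurable
    exact ((Complex.continuous_conj.measurable.comp (measurable_pi_apply a)).mul
      (measurable_pi_apply b)).div (((Complex.measurable_ofReal.comp h1).pow_const 2).const_mul _)
  · simp only [Fin.snoc_castSucc]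
    exact measurable_of_continuousOn_compl_singleton 0
      (Pool.Agent.H47.EQ.cont_hess hW6 isOpen_compl_singleton (hv j).smooth a b)

theorem bk_meas {N : ℕ} {α : Type} [MeasurableSpace α] {f : α → Matrix (Fin N) (Fin N) ℂ}
    (hf : ∀ a b, Measurable fun x => f x a b) (c : ℂ) (a b : Fin (N + 1)) :
    Measurable fun x => bk c (f x) a b := by
  refine Fin.cases ?_ (fun a' => ?_) a
  · refine Fin.cases ?_ (fun b' => ?_) b
    · exact measurable_const
    · exact measurable_const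
  · refine Fin.cases ?_ (fun b' => ?_) b
    · exact measurable_const
    · exact hf a' b'

theorem ct_cont {N : ℕ} : Continuous fun p : ℂ × (Fin N → ℂ) => ct p.1 p.2 := by
  refine continuous_pi fun i => ?_
  refine Fin.cases ?_ (fun i => ?_) i
  · exact continuous_fst
  · exact (continuous_apply i).comp continuous_snd

/-- The pull-backs are measurable in the matrix and the point. -/
theorem pull_meas {p M : ℕ} (m : ℕ) {S : Form (Fin (k + 1)) p} (hS : ProjForm S)
    (G : Fin (k + 1) → MvPolynomial (Fin M) ℂ) (I J : Fin p → Fin M) :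
    Measurable fun P : (Fin (k + 1) → Fin (k + 1) → ℂ) × (Fin M → ℂ) =>
      pull G (pull (lin (mX m P.1)) S) P.2 I J := by
  have hevc : Continuous fun P : (Fin (k + 1) → Fin (k + 1) → ℂ) × (Fin M → ℂ) =>
      ev G P.2 := by
    refine continuous_pi fun i => ?_
    exact (MvPolynomial.continuous_eval (G i)).comp continuous_snd
  have hjc : ∀ a b, Continuous fun P : (Fin (k + 1) → Fin (k + 1) → ℂ) × (Fin M → ℂ) =>
      jac G P.2 a b := fun a b =>
    (MvPolynomial.continuous_eval (MvPolynomial.pderiv b (G a))).comp continuous_snd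
  have hmc : ∀ a b, Continuous fun P : (Fin (k + 1) → Fin (k + 1) → ℂ) × (Fin M → ℂ) =>
      mX m P.1 a b := fun a b =>
    ((continuous_apply b).comp (continuous_apply a)).comp ((mX_cont m).comp continuous_fst)
  have hSm : ∀ I' J', Measurable fun P : (Fin (k + 1) → Fin (k + 1) → ℂ) × (Fin M → ℂ) =>
      S ((mX m P.1).mulVec (ev G P.2)) I' J' := by
    intro I' J'
    have h1 : Measurable fun y : Fin (k + 1) → ℂ => S y I' J' :=
      measurable_of_continuousOn_compl_singleton 0 (hS.cp.smooth I' J').continuousOn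
    exact h1.comp ((((mX_cont m).comp continuous_fst).matrix_mulVec hevc).measurable)
  unfold pull
  simp only [ev_lin, jac_lin]
  refine Finset.measurable_sum _ fun I' _ => Finset.measurable_sum _ fun J' _ => ?_
  refine Measurable.mul (Measurable.mul ?_ ?_) ?_
  · refine Finset.measurable_sum _ fun I2 _ => Finset.measurable_sum _ fun J2 _ => ?_
    refine Measurable.mul (Measurable.mul (hSm _ _) ?_) ?_
    · exact Finset.measurable_prod _ fun l _ => (hmc _ _).measurable
    · exact Finset.measurable_prod _ fun l _ =>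
        Complex.continuous_conj.measurable.comp (hmc _ _).measurable
  · exact Finset.measurable_prod _ fun l _ => (hjc _ _).measurable
  · exact Finset.measurable_prod _ fun l _ =>
      Complex.continuous_conj.measurable.comp (hjc _ _).measurable

/-- The density with the slots on `C^N`. -/
def Rf (m : ℕ) {p r : ℕ} (S : Form (Fin (k + 1)) p)
    (G : Fin (k + 1) → MvPolynomial (Fin (k + 1 + 1)) ℂ)
    (v : Fin r → (Fin (k + 1) → ℂ) → ℝ) (X : Fin (k + 1) → Fin (k + 1) → ℂ) (t : ℂ)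
    (x : Fin (k + 1) → ℂ) : ℝ :=
  (mixD (pull G (pull (lin (mX m X)) S) (ct t x))
    (fun j => bk (((0 : ℝ) : ℝ) : ℂ) (sl v x j))).re

theorem pull_meas2 {p : ℕ} (m : ℕ) {S : Form (Fin (k + 1)) p} (hS : ProjForm S)
    (G : Fin (k + 1) → MvPolynomial (Fin (k + 1 + 1)) ℂ) (I J : Fin p → Fin (k + 1 + 1)) :
    Measurable fun P : (Fin (k + 1) → Fin (k + 1) → ℂ) × (ℂ × (Fin (k + 1) → ℂ)) =>
      pull G (pull (lin (mX m P.1)) S) (ct P.2.1 P.2.2) I J := by
  have h1 := pull_meas (M := k + 1 + 1) m hS G I J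
  have h2 : Measurable fun P : (Fin (k + 1) → Fin (k + 1) → ℂ) × (ℂ × (Fin (k + 1) → ℂ)) =>
      (P.1, ct P.2.1 P.2.2) :=
    measurable_fst.prodMk (ct_cont.measurable.comp measurable_snd)
  have h3 := Measurable.comp h1 h2
  exact h3

theorem sl_meas2 (hW6 : T_W6) {r : ℕ} {v : Fin r → (Fin (k + 1) → ℂ) → ℝ}
    (hv : ∀ l, Pot (v l)) (j : Fin (r + 1)) (a b : Fin (k + 1 + 1)) :
    Measurable fun P : (Fin (k + 1) → Fin (k + 1) → ℂ) × (ℂ × (Fin (k + 1) → ℂ)) =>
      bk (((0 : ℝ) : ℝ) : ℂ) (sl v P.2.2 j) a b := by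
  have h1 : Measurable fun x : Fin (k + 1) → ℂ => bk (((0 : ℝ) : ℝ) : ℂ) (sl v x j) a b :=
    bk_meas (fun a b => sl_meas hW6 hv j a b) _ a b
  have h2 : Measurable fun P : (Fin (k + 1) → Fin (k + 1) → ℂ) × (ℂ × (Fin (k + 1) → ℂ)) =>
      P.2.2 := measurable_snd.comp measurable_snd
  have h3 := Measurable.comp h1 h2
  exact h3

theorem Rf_meas (hW6 : T_W6) (m : ℕ) {p r : ℕ} {S : Form (Fin (k + 1)) p} (hS : ProjForm S)
    (G : Fin (k + 1) → MvPolynomial (Fin (k + 1 + 1)) ℂ)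
    {v : Fin r → (Fin (k + 1) → ℂ) → ℝ} (hv : ∀ l, Pot (v l)) :
    Measurable fun P : (Fin (k + 1) → Fin (k + 1) → ℂ) × (ℂ × (Fin (k + 1) → ℂ)) =>
      Rf m S G v P.1 P.2.1 P.2.2 := by
  have h1 : Measurable fun P : (Fin (k + 1) → Fin (k + 1) → ℂ) × (ℂ × (Fin (k + 1) → ℂ)) =>
      mixD (pull G (pull (lin (mX m P.1)) S) (ct P.2.1 P.2.2))
        (fun j => bk (((0 : ℝ) : ℝ) : ℂ) (sl v P.2.2 j)) := by
    unfold mixD
    refine Finset.measurable_sum _ fun e _ => Finset.measurable_sum _ fun e' _ => ?_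
    refine Measurable.mul (Measurable.mul measurable_const ?_) ?_
    · exact pull_meas2 m hS G (fun i => e (Sum.inl i)) (fun i => e' (Sum.inl i))
    · exact Finset.measurable_prod _ fun j _ =>
        sl_meas2 hW6 hv j (e (Sum.inr j)) (e' (Sum.inr j))
  exact Complex.measurable_re.comp h1

end

end Pool.Agent.H92.EM.MRT
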